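import Mathlib

/-!
Quantum algorithms with phase queries to linear forms: comparison of the uniform distribution with
the image of the uniform distribution under a linear map.

The states are written in the Fourier basis of the functions of the input `c`: a family
`a : (E → ZMod q) → Z → ℂ` stands for the state `c ↦ ∑ S, χ(⟨S, c⟩) a S`.
-/

set_option autoImplicit false

namespace Pool.Agent.KS6_62.QQ

open Finset ComplexConjugate

variable {q : ℕ} [NeZero q] {E Z P : Type} [Fintype E] [DecidableEq E] [Fintype Z] [Fintype P]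

/-- the pairing of two vectors -/
def pr (S c : E → ZMod q) : ZMod q := ∑ e, S e * c e

omit [NeZero q] [DecidableEq E] in
theorem pr_add (S S' c : E → ZMod q) : pr (S + S') c = pr S c + pr S' c := by
  simp only [pr, Pi.add_apply, add_mul, sum_add_distrib]

omit [NeZero q] [DecidableEq E] in
theorem pr_neg (S c : E → ZMod q) : pr (-S) c = - pr S c := by
  simp only [pr, Pi.neg_apply, neg_mul, sum_neg_distrib]

omit [NeZero q] [DecidableEq E] in
theorem pr_sub (S S' c : E → ZMod q) : pr (S - S') c = pr S c - pr S' c := by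
  rw [sub_eq_add_neg, pr_add, pr_neg, sub_eq_add_neg]

omit [NeZero q] [DecidableEq E] in
theorem pr_zero (c : E → ZMod q) : pr 0 c = 0 := by simp [pr]

/-- the character of a vector -/
noncomputable def ch (S c : E → ZMod q) : ℂ := ZMod.stdAddChar (pr S c)

omit [DecidableEq E] in
theorem ch_zero (c : E → ZMod q) : ch 0 c = 1 := by
  rw [ch, pr_zero, AddChar.map_zero_eq_one]

omit [DecidableEq E] in
theorem ch_add (S S' c : E → ZMod q) : ch (S + S') c = ch S c * ch S' c := by
  rw [ch, pr_add, AddChar.map_add_eq_mul]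
  rfl

omit [DecidableEq E] in
theorem ch_sub (S S' c : E → ZMod q) : ch (S - S') c = ch S c * conj (ch S' c) := by
  rw [ch, pr_sub, sub_eq_add_neg, AddChar.map_add_eq_mul, AddChar.map_neg_eq_conj]
  rfl

omit [DecidableEq E] in
theorem norm_ch (S c : E → ZMod q) : ‖ch S c‖ = 1 := by
  rw [ch]
  exact AddChar.norm_apply _ _

omit [DecidableEq E] in
/-- A character which is not trivial on the image has mean zero there. -/
theorem sum_ch [AddCommGroup P] (Φ : P →+ (E → ZMod q)) (S : E → ZMod q)
    (h : ¬ ∀ p, pr S (Φ p) = 0) : ∑ p, ch S (Φ p) = 0 := by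
  let f : P →+ ZMod q :=
    { toFun := fun p => pr S (Φ p)
      map_zero' := by simp [pr]
      map_add' := fun p p' => by
        simp only [pr, map_add, Pi.add_apply, mul_add, sum_add_distrib] }
  have h1 : (ZMod.stdAddChar (N := q)).compAddMonoidHom f ≠ 1 := by
    intro h2
    apply h
    intro p
    have h3 := DFunLike.congr_fun h2 p
    rw [AddChar.one_apply] at h3
    apply ZMod.injective_stdAddChar (N := q)
    rw [AddChar.map_zero_eq_one]
    exact h3
  exact AddChar.sum_eq_zero_of_ne_one h1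

/-- Parseval for coefficients whose support is separated by the image. -/
theorem iso_one [AddCommGroup P] (Φ : P →+ (E → ZMod q)) (u : (E → ZMod q) → ℂ)
    (hsep : ∀ S S', u S ≠ 0 → u S' ≠ 0 → (∀ p, pr (S - S') (Φ p) = 0) → S = S') :
    ∑ p, ‖∑ S, ch S (Φ p) * u S‖ ^ 2 = Fintype.card P * ∑ S, ‖u S‖ ^ 2 := by
  classical
  have h1 : ∀ p, ((‖∑ S, ch S (Φ p) * u S‖ ^ 2 : ℝ) : ℂ) =
      ∑ S, ∑ S', u S * conj (u S') * ch (S - S') (Φ p) := by
    intro p
    push_cast
    rw [← Complex.mul_conj', map_sum, sum_mul_sum]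
    refine sum_congr rfl fun S _ => sum_congr rfl fun S' _ => ?_
    rw [ch_sub, map_mul]
    ring
  have h2 : ((∑ p, ‖∑ S, ch S (Φ p) * u S‖ ^ 2 : ℝ) : ℂ) =
      ((Fintype.card P * ∑ S, ‖u S‖ ^ 2 : ℝ) : ℂ) := by
    rw [Complex.ofReal_sum]
    simp only [h1]
    rw [sum_comm]
    push_cast
    rw [mul_sum]
    refine sum_congr rfl fun S _ => ?_
    rw [sum_comm, sum_eq_single S]
    · simp only [sub_self, ch_zero, mul_one, sum_const, card_univ, nsmul_eq_mul]
      rw [Complex.mul_conj']
    · intro S' _ hne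
      rw [← mul_sum]
      by_cases hS : u S = 0
      · simp [hS]
      by_cases hS' : u S' = 0
      · simp [hS']
      rw [sum_ch, mul_zero]
      intro h
      exact hne (hsep S S' hS hS' h).symm
    · simp
  exact_mod_cast h2

/-- squared norm -/
noncomputable def nsq (v : Z → ℂ) : ℝ := ∑ z, ‖v z‖ ^ 2

theorem nsq_nonneg (v : Z → ℂ) : 0 ≤ nsq v := sum_nonneg fun _ _ => by positivity

/-- the family of Fourier coefficients, as a state depending on the input -/
noncomputable def ev (a : (E → ZMod q) → Z → ℂ) (c : E → ZMod q) : Z → ℂ :=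
  fun z => ∑ S, ch S c * a S z

/-- the phase oracle on the states -/
noncomputable def ph (sh : Z → E → ZMod q) (c : E → ZMod q) (v : Z → ℂ) : Z → ℂ :=
  fun z => ch (sh z) c * v z

/-- the phase oracle on the Fourier side -/
def O (sh : Z → E → ZMod q) (a : (E → ZMod q) → Z → ℂ) : (E → ZMod q) → Z → ℂ :=
  fun S z => a (S - sh z) z

omit [Fintype Z] in
theorem ev_O (sh : Z → E → ZMod q) (a : (E → ZMod q) → Z → ℂ) (c : E → ZMod q) :
    ev (O sh a) c = ph sh c (ev a c) := by
  ext z
  simp only [ev, O, ph]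
  rw [mul_sum, ← Equiv.sum_comp (Equiv.addRight (sh z))]
  refine sum_congr rfl fun S _ => ?_
  simp only [Equiv.coe_addRight, add_sub_cancel_right]
  rw [ch_add]
  ring

omit [Fintype Z] in
theorem ev_map (U : (Z → ℂ) →ₗ[ℂ] (Z → ℂ)) (a : (E → ZMod q) → Z → ℂ) (c : E → ZMod q) :
    ev (fun S => U (a S)) c = U (ev a c) := by
  have h1 : ∀ b : (E → ZMod q) → Z → ℂ, ev b c = ∑ S, ch S c • b S := by
    intro b
    ext z
    simp [ev, Finset.sum_apply]
  rw [h1, h1, map_sum]
  simp only [map_smul]

omit [Fintype Z] in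
theorem ev_add (a b : (E → ZMod q) → Z → ℂ) (c : E → ZMod q) :
    ev (a + b) c = ev a c + ev b c := by
  ext z
  simp only [ev, Pi.add_apply, mul_add, sum_add_distrib]

omit [DecidableEq E] in
theorem nsq_ph (sh : Z → E → ZMod q) (c : E → ZMod q) (v : Z → ℂ) : nsq (ph sh c v) = nsq v := by
  simp only [nsq, ph, norm_mul, norm_ch, one_mul]

/-- norm of the coefficients -/
noncomputable def NU (a : (E → ZMod q) → Z → ℂ) : ℝ := √(∑ S, nsq (a S))

/-- norm on the image -/
noncomputable def NP (Φ : P → E → ZMod q) (a : (E → ZMod q) → Z → ℂ) : ℝ :=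
  √((∑ p, nsq (ev a (Φ p))) / Fintype.card P)

theorem NU_nonneg (a : (E → ZMod q) → Z → ℂ) : 0 ≤ NU a := Real.sqrt_nonneg _

theorem NP_nonneg (Φ : P → E → ZMod q) (a : (E → ZMod q) → Z → ℂ) : 0 ≤ NP Φ a :=
  Real.sqrt_nonneg _

theorem NP_add (Φ : P → E → ZMod q) (a b : (E → ZMod q) → Z → ℂ) :
    NP Φ (a + b) ≤ NP Φ a + NP Φ b := by
  have key : ∀ x : (E → ZMod q) → Z → ℂ, NP Φ x =
      ‖(WithLp.toLp 2 fun i : P × Z => ev x (Φ i.1) i.2 : EuclideanSpace ℂ (P × Z))‖ /
        √(Fintype.card P) := by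
    intro x
    rw [EuclideanSpace.norm_eq, NP, Real.sqrt_div (sum_nonneg fun _ _ => nsq_nonneg _)]
    congr 2
    rw [Fintype.sum_prod_type]
    rfl
  rw [key, key, key, ← add_div]
  gcongr
  refine le_trans (le_of_eq ?_) (norm_add_le _ _)
  congr 1
  ext i
  simp [ev_add]

theorem NP_map (Φ : P → E → ZMod q) (U : (Z → ℂ) →ₗ[ℂ] (Z → ℂ)) (hU : ∀ v, nsq (U v) ≤ nsq v)
    (a : (E → ZMod q) → Z → ℂ) : NP Φ (fun S => U (a S)) ≤ NP Φ a := by
  unfold NP
  simp only [ev_map]
  apply Real.sqrt_le_sqrt
  gcongr with p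
  exact hU _

theorem NP_O (Φ : P → E → ZMod q) (sh : Z → E → ZMod q) (a : (E → ZMod q) → Z → ℂ) :
    NP Φ (O sh a) = NP Φ a := by
  unfold NP
  simp only [ev_O, nsq_ph]

/-- The two norms agree on coefficients with separated support. -/
theorem NP_eq [AddCommGroup P] (Φ : P →+ (E → ZMod q)) (a : (E → ZMod q) → Z → ℂ)
    (hsep : ∀ z S S', a S z ≠ 0 → a S' z ≠ 0 → (∀ p, pr (S - S') (Φ p) = 0) → S = S') :
    NP Φ a = NU a := by
  unfold NP NU
  congr 1
  have hP : (Fintype.card P : ℝ) ≠ 0 := by
    exact_mod_cast (Fintype.card_pos_iff.2 ⟨0⟩).ne'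
  rw [div_eq_iff hP]
  have h1 : ∑ p, nsq (ev a (Φ p)) = ∑ z, ∑ p, ‖∑ S, ch S (Φ p) * a S z‖ ^ 2 := by
    simp only [nsq, ev]
    rw [sum_comm]
  have h2 : ∑ S, nsq (a S) = ∑ z, ∑ S, ‖a S z‖ ^ 2 := by
    simp only [nsq]
    rw [sum_comm]
  rw [h1, h2, sum_mul]
  refine sum_congr rfl fun z _ => ?_
  rw [iso_one Φ (fun S => a S z) (hsep z), mul_comm]

open Classical in
/-- restriction of the coefficients to a set -/
noncomputable def res (G : (E → ZMod q) → Prop) (a : (E → ZMod q) → Z → ℂ) :
    (E → ZMod q) → Z → ℂ := fun S z => if G S then a S z else 0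

omit [Fintype E] [DecidableEq E] [Fintype Z] [NeZero q] in
theorem res_add (G : (E → ZMod q) → Prop) (a : (E → ZMod q) → Z → ℂ) :
    res G a + res (fun S => ¬ G S) a = a := by
  ext S z
  simp only [Pi.add_apply, res]
  by_cases h : G S <;> simp [h]

omit [Fintype E] [DecidableEq E] [Fintype Z] [NeZero q] in
theorem res_map (G : (E → ZMod q) → Prop) (U : (Z → ℂ) →ₗ[ℂ] (Z → ℂ))
    (a : (E → ZMod q) → Z → ℂ) : res G (fun S => U (a S)) = fun S => U (res G a S) := by
  ext S z
  by_cases h : G S
  · have h1 : res G a S = a S := by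
      ext z'
      simp [res, h]
    simp only [h1, res, h, if_true]
  · have h1 : res G a S = 0 := by
      ext z'
      simp [res, h]
    simp only [h1, res, h, if_false, map_zero, Pi.zero_apply]

theorem NU_mono (a b : (E → ZMod q) → Z → ℂ) (h : ∀ S z, ‖a S z‖ ≤ ‖b S z‖) : NU a ≤ NU b := by
  unfold NU nsq
  apply Real.sqrt_le_sqrt
  gcongr with S _ z
  exact h S z

theorem NU_O (sh : Z → E → ZMod q) (a : (E → ZMod q) → Z → ℂ) : NU (O sh a) = NU a := by
  unfold NU
  congr 1
  simp only [nsq, O]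
  rw [sum_comm, sum_comm (f := fun S z => ‖a S z‖ ^ 2)]
  refine sum_congr rfl fun z _ => ?_
  exact Equiv.sum_comp (Equiv.subRight (sh z)) (fun S => ‖a S z‖ ^ 2)

/-- The Fourier side of the run of an algorithm. -/
noncomputable def st (sh : Z → E → ZMod q) (U : ℕ → (Z → ℂ) →ₗ[ℂ] (Z → ℂ)) (v : Z → ℂ) :
    ℕ → (E → ZMod q) → Z → ℂ
  | 0 => fun S z => if S = 0 then v z else 0
  | t + 1 => fun S => U t (O sh (st sh U v t) S)

/-- The run of an algorithm. -/
noncomputable def run (sh : Z → E → ZMod q) (U : ℕ → (Z → ℂ) →ₗ[ℂ] (Z → ℂ)) (v : Z → ℂ)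
    (c : E → ZMod q) : ℕ → Z → ℂ
  | 0 => v
  | t + 1 => U t (ph sh c (run sh U v c t))

omit [Fintype Z] in
theorem ev_st (sh : Z → E → ZMod q) (U : ℕ → (Z → ℂ) →ₗ[ℂ] (Z → ℂ)) (v : Z → ℂ)
    (c : E → ZMod q) (t : ℕ) : ev (st sh U v t) c = run sh U v c t := by
  induction t with
  | zero =>
    ext z
    simp only [ev, st, run]
    rw [sum_eq_single 0]
    · simp [ch_zero]
    · intro S _ h
      simp [h]
    · simp
  | succ t ih =>
    rw [st, run, ev_map, ev_O, ih]

theorem NU_st (sh : Z → E → ZMod q) (U : ℕ → (Z → ℂ) →ₗ[ℂ] (Z → ℂ))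
    (hU : ∀ t v, nsq (U t v) = nsq v) (v : Z → ℂ) (hv : nsq v = 1) (t : ℕ) :
    NU (st sh U v t) = 1 := by
  induction t with
  | zero =>
    unfold NU
    rw [sum_eq_single 0]
    · simp [st, hv]
    · intro S _ h
      simp [st, h, nsq]
    · simp
  | succ t ih =>
    have h1 : NU (st sh U v (t + 1)) = NU (O sh (st sh U v t)) := by
      unfold NU
      simp only [st, hU]
    rw [h1, NU_O, ih]

/-- The comparison: the bad part grows slowly. -/
theorem bad_growth [AddCommGroup P] (Φ : P →+ (E → ZMod q)) (G : (E → ZMod q) → Prop)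
    (hG0 : G 0) (hsep : ∀ S S', G S → G S' → (∀ p, pr (S - S') (Φ p) = 0) → S = S')
    (sh : Z → E → ZMod q) (U : ℕ → (Z → ℂ) →ₗ[ℂ] (Z → ℂ))
    (hU : ∀ t v, nsq (U t v) = nsq v) (v : Z → ℂ) (T : ℕ) :
    NP Φ (res (fun S => ¬ G S) (st sh U v T)) ≤
      ∑ t ∈ range T, (NU (res (fun S => ¬ G S) (O sh (st sh U v t))) +
        NU (res (fun S => ¬ G S) (st sh U v t))) := by
  induction T with
  | zero =>
    have h1 : res (fun S => ¬ G S) (st sh U v 0) = 0 := by
      ext S z
      simp only [res, st, Pi.zero_apply]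
      by_cases h : G S
      · simp [h]
      · have : S ≠ 0 := by
          rintro rfl
          exact h hG0
        simp [this]
    rw [h1]
    simp [NP, ev, nsq]
  | succ T ih =>
    rw [sum_range_succ]
    set a := st sh U v T with ha
    have h1 : res (fun S => ¬ G S) (st sh U v (T + 1)) =
        fun S => U T (res (fun S => ¬ G S) (O sh a) S) := by
      rw [← res_map]
      rfl
    rw [h1]
    refine (NP_map _ _ (fun v => (hU T v).le) _).trans ?_
    -- decomposition
    set x := res (fun S => ¬ G S) (O sh (res G a)) with hx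
    set y := O sh (res (fun S => ¬ G S) a) with hy
    set w : (E → ZMod q) → Z → ℂ := fun S z => - res G (O sh (res (fun S => ¬ G S) a)) S z with hw
    have h2 : res (fun S => ¬ G S) (O sh a) = x + (y + w) := by
      ext S z
      simp only [hx, hy, hw, Pi.add_apply, res, O]
      by_cases h3 : G S <;> by_cases h4 : G (S - sh z) <;> simp [h3, h4]
    have hxe : NP Φ x = NU x := by
      apply NP_eq
      intro z S S' hS hS' hp
      have h5 : G (S - sh z) := by
        by_contra h
        apply hS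
        simp only [hx, res, O]
        by_cases h3 : G S <;> simp [h3, h]
      have h6 : G (S' - sh z) := by
        by_contra h
        apply hS'
        simp only [hx, res, O]
        by_cases h3 : G S' <;> simp [h3, h]
      have h7 := hsep _ _ h5 h6 (by
        intro p
        rw [sub_sub_sub_cancel_right]
        exact hp p)
      exact sub_left_injective h7
    have hwe : NP Φ w = NU w := by
      apply NP_eq
      intro z S S' hS hS' hp
      have h5 : G S := by
        by_contra h
        apply hS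
        simp only [hw, res, O]
        simp [h]
      have h6 : G S' := by
        by_contra h
        apply hS'
        simp only [hw, res, O]
        simp [h]
      exact hsep _ _ h5 h6 hp
    have hx1 : NU x ≤ NU (res (fun S => ¬ G S) (O sh a)) := by
      apply NU_mono
      intro S z
      simp only [hx, res, O]
      by_cases h3 : G S <;> by_cases h4 : G (S - sh z) <;> simp [h3, h4]
    have hw1 : NU w ≤ NU (res (fun S => ¬ G S) a) := by
      rw [← NU_O sh (res (fun S => ¬ G S) a)]
      apply NU_mono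
      intro S z
      simp only [hw, res, O]
      by_cases h3 : G S <;> by_cases h4 : G (S - sh z) <;> simp [h3, h4]
    calc NP Φ (res (fun S => ¬ G S) (O sh a)) = NP Φ (x + (y + w)) := congrArg _ h2
      _ ≤ NP Φ x + (NP Φ y + NP Φ w) :=
          (NP_add _ _ _).trans (add_le_add le_rfl (NP_add _ _ _))
      _ = NU x + (NP Φ (res (fun S => ¬ G S) a) + NU w) := by rw [hxe, hwe, hy, NP_O]
      _ ≤ _ := by linarith

/-- The acceptance probabilities on the image and on all inputs. -/
theorem compare [AddCommGroup P] (Φ : P →+ (E → ZMod q))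
    (G : (E → ZMod q) → Prop)
    (hG0 : G 0) (hsep : ∀ S S', G S → G S' → (∀ p, pr (S - S') (Φ p) = 0) → S = S')
    (sh : Z → E → ZMod q) (U : ℕ → (Z → ℂ) →ₗ[ℂ] (Z → ℂ))
    (hU : ∀ t v, nsq (U t v) = nsq v) (v : Z → ℂ) (M : (Z → ℂ) →ₗ[ℂ] (Z → ℂ))
    (hM : ∀ v, nsq (M v) ≤ nsq v) (T : ℕ) :
    √((∑ p, nsq (M (run sh U v (Φ p) T))) / Fintype.card P) ≤
      √((∑ c : E → ZMod q, nsq (M (run sh U v c T))) / Fintype.card (E → ZMod q)) +
      ∑ t ∈ range T, (NU (res (fun S => ¬ G S) (O sh (st sh U v t))) +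
        NU (res (fun S => ¬ G S) (st sh U v t))) := by
  set a := st sh U v T with ha
  have h1 : √((∑ p, nsq (M (run sh U v (Φ p) T))) / Fintype.card P) =
      NP Φ (fun S => M (a S)) := by
    unfold NP
    simp only [ev_map, ha, ev_st]
  have h2 : √((∑ c : E → ZMod q, nsq (M (run sh U v c T))) / Fintype.card (E → ZMod q)) =
      NU (fun S => M (a S)) := by
    rw [← NP_eq (AddMonoidHom.id (E → ZMod q)) (fun S => M (a S))]
    · unfold NP
      simp only [ev_map, ha, ev_st, AddMonoidHom.id_apply]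
    · intro z S S' _ _ h
      ext e
      have h3 := h (Pi.single e 1)
      simp only [AddMonoidHom.id_apply, pr, Pi.sub_apply] at h3
      rw [sum_eq_single e] at h3
      · simpa [sub_eq_zero] using h3
      · intro e' _ hne
        simp [hne]
      · simp
  rw [h1, h2]
  have h3 : (fun S => M (a S)) = (fun S => M (res G a S)) +
      fun S => M (res (fun S => ¬ G S) a S) := by
    ext S z
    have h4 : a S = res G a S + res (fun S => ¬ G S) a S :=
      (congrFun (res_add G a) S).symm
    conv_lhs => rw [h4]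
    rw [map_add]
    rfl
  have h5 : NP Φ (fun S => M (res G a S)) = NU (fun S => M (res G a S)) := by
    apply NP_eq
    have h6 : ∀ z S, M (res G a S) z ≠ 0 → G S := by
      intro z S hS
      by_contra h
      apply hS
      have : res G a S = 0 := by
        ext z'
        simp [res, h]
      rw [this, map_zero]
      rfl
    intro z S S' hS hS' hp
    exact hsep _ _ (h6 z S hS) (h6 z S' hS') hp
  have h7 : NU (fun S => M (res G a S)) ≤ NU (fun S => M (a S)) := by
    rw [← res_map]
    apply NU_mono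
    intro S z
    simp only [res]
    by_cases h : G S <;> simp [h]
  calc NP Φ (fun S => M (a S)) ≤ NP Φ (fun S => M (res G a S)) +
        NP Φ (fun S => M (res (fun S => ¬ G S) a S)) := by
        rw [h3]
        exact NP_add _ _ _
    _ ≤ NU (fun S => M (a S)) + NP Φ (res (fun S => ¬ G S) a) := by
        rw [h5]
        exact add_le_add h7 (NP_map _ _ hM _)
    _ ≤ _ := add_le_add le_rfl (bad_growth Φ G hG0 hsep sh U hU v T)

end Pool.Agent.KS6_62.QQ
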