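import Pool.Agent.KS6_62.QQ.Core
import Pool.Graph.R_pool_sql_team_seeded_47a924f7.T6.H63.LD.Plant

/-!
The bad vectors for a random set of clean edges.
-/

set_option autoImplicit false

namespace Pool.Agent.KS6_62.QQ

open Finset
open Pool.Agent.T6.H63.LD (gr Phi IsFlow orth flow_path clean_card edge_inj mem_edgeSet)

variable {U V E : Type} {s : E → U} {d : E → V} {q k : ℕ} [NeZero k]

/-- `x` is an end of an edge of the support of `S` -/
def Touch (s : E → U) (d : E → V) (S : E → ZMod q) (x : U ⊕ V) : Prop :=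
  ∃ e, S e ≠ 0 ∧ (x = Sum.inl (s e) ∨ x = Sum.inr (d e))

/-- two vertices of the support of `S` are joined by a clean path of length between `m` and `r` -/
def Bad (s : E → U) (d : E → V) (z : E → Fin k) (m r : ℕ) (S : E → ZMod q) : Prop :=
  ∃ x y, Touch s d S x ∧ Touch s d S y ∧ ∃ p : (gr s d Set.univ).Walk x y, p.IsPath ∧
    m ≤ p.length ∧ p.length ≤ r ∧ ∀ e, s(Sum.inl (s e), Sum.inr (d e)) ∈ p.edges → z e ≠ 0

theorem path_aux {z : E → Fin k} {m r : ℕ} (hm : 2 * m ≤ r + 1)
    {S S' : E → ZMod q} {x y : U ⊕ V}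
    (p : (gr s d Set.univ).Walk x y) (hp : p.IsPath) (hr : p.length = r)
    (hcov : ∀ e, s(Sum.inl (s e), Sum.inr (d e)) ∈ p.edges → S e ≠ 0 ∨ S' e ≠ 0)
    (hz : ∀ e, s(Sum.inl (s e), Sum.inr (d e)) ∈ p.edges → z e ≠ 0)
    (hx : Touch s d S x) (hx' : ¬ Touch s d S' x) (hy : Touch s d S' y) :
    Bad s d z m r S ∨ Bad s d z m r S' := by
  classical
  have hex : ∃ i, Touch s d S' (p.getVert i) := ⟨p.length, by rwa [p.getVert_length]⟩
  obtain ⟨i, hi1, hi2⟩ : ∃ i, Touch s d S' (p.getVert i) ∧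
      ∀ j < i, ¬ Touch s d S' (p.getVert j) :=
    ⟨Nat.find hex, Nat.find_spec hex, fun j hj => Nat.find_min hex hj⟩
  have hir : i ≤ r := by
    by_contra h
    exact hi2 r (by omega) (by rw [← hr, p.getVert_length]; exact hy)
  obtain ⟨j, rfl⟩ : ∃ j, i = j + 1 := by
    cases i with
    | zero =>
      rw [p.getVert_zero] at hi1
      exact absurd hi1 hx'
    | succ j => exact ⟨j, rfl⟩
  have hedge : s(p.getVert j, p.getVert (j + 1)) ∈ p.edges := by
    rw [SimpleGraph.Walk.mk_mem_edges_iff_exists]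
    exact ⟨j, by omega, rfl⟩
  obtain ⟨e, -, he⟩ := mem_edgeSet (p.edges_subset_edgeSet hedge)
  have hj := hi2 j (by omega)
  have hends : (p.getVert j = Sum.inl (s e) ∧ p.getVert (j + 1) = Sum.inr (d e)) ∨
      (p.getVert j = Sum.inr (d e) ∧ p.getVert (j + 1) = Sum.inl (s e)) := by
    rw [Sym2.eq_iff] at he
    tauto
  have hSe : S e ≠ 0 := by
    rcases hcov e (by rw [← he]; exact hedge) with h | h
    · exact h
    · exfalso
      apply hj
      refine ⟨e, h, ?_⟩
      tauto
  have hT : Touch s d S (p.getVert (j + 1)) := ⟨e, hSe, by tauto⟩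
  by_cases hmi : m ≤ j + 1
  · left
    refine ⟨x, p.getVert (j + 1), hx, hT, p.take (j + 1), hp.take _, ?_, ?_, ?_⟩
    · rw [SimpleGraph.Walk.take_length, hr]
      omega
    · rw [SimpleGraph.Walk.take_length, hr]
      omega
    · intro e he
      rw [SimpleGraph.Walk.edges_take] at he
      exact hz e (List.mem_of_mem_take he)
  · right
    refine ⟨p.getVert (j + 1), y, hi1, hy, p.drop (j + 1), hp.drop _, ?_, ?_, ?_⟩
    · rw [SimpleGraph.Walk.drop_length, hr]
      omega
    · rw [SimpleGraph.Walk.drop_length, hr]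
      omega
    · intro e he
      rw [SimpleGraph.Walk.edges_drop] at he
      exact hz e (List.mem_of_mem_drop he)

theorem path_case {z : E → Fin k} {m r : ℕ} (hm : 2 * m ≤ r + 1) (hmr : m ≤ r)
    {S S' : E → ZMod q} {x y : U ⊕ V}
    (p : (gr s d Set.univ).Walk x y) (hp : p.IsPath) (hr : p.length = r)
    (hcov : ∀ e, s(Sum.inl (s e), Sum.inr (d e)) ∈ p.edges → S e ≠ 0 ∨ S' e ≠ 0)
    (hz : ∀ e, s(Sum.inl (s e), Sum.inr (d e)) ∈ p.edges → z e ≠ 0)
    (hx : Touch s d S x ∨ Touch s d S' x) (hy : Touch s d S y ∨ Touch s d S' y) :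
    Bad s d z m r S ∨ Bad s d z m r S' := by
  have hwhole : ∀ {R : E → ZMod q}, Touch s d R x → Touch s d R y → Bad s d z m r R :=
    fun h1 h2 => ⟨x, y, h1, h2, p, hp, by omega, by omega, hz⟩
  by_cases h1 : Touch s d S x
  · by_cases h2 : Touch s d S y
    · exact Or.inl (hwhole h1 h2)
    · have h3 : Touch s d S' y := hy.resolve_left h2
      by_cases h4 : Touch s d S' x
      · exact Or.inr (hwhole h4 h3)
      · exact path_aux hm p hp hr hcov hz h1 h4 h3
  · have h2 : Touch s d S' x := hx.resolve_left h1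
    by_cases h3 : Touch s d S' y
    · exact Or.inr (hwhole h2 h3)
    · have h4 : Touch s d S y := hy.resolve_right h3
      exact (path_aux hm p hp hr (fun e he => (hcov e he).symm) hz h2 h1 h4).symm

/-- Vectors which are not bad are separated by the planted instances. -/
theorem sep [Fintype E] [Finite U] [Finite V] [Fact q.Prime]
    (hinj : ∀ e e', s e = s e' → d e = d e' → e = e') {m r : ℕ}
    (hg : ((2 * r : ℕ) : ℕ∞) < (gr s d Set.univ).egirth) (hm : 2 * m ≤ r + 1) (hmr : m ≤ r)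
    (z : E → Fin k) (S S' : E → ZMod q) (hS : ¬ Bad s d z m r S) (hS' : ¬ Bad s d z m r S')
    (h : ∀ p, pr (S - S') (Phi s d q z p) = 0) : S = S' := by
  by_contra hne
  obtain ⟨h1, h2⟩ := orth z (S - S') h
  have hne' : ∃ e, (S - S') e ≠ 0 := by
    by_contra h3
    push Not at h3
    apply hne
    ext e
    have := h3 e
    rw [Pi.sub_apply, sub_eq_zero] at this
    exact this
  obtain ⟨x, y, p, hp, hr, hcov, ⟨ex, hex, hx⟩, ⟨ey, hey, hy⟩⟩ := flow_path hinj hg h2 hne'
  have hor : ∀ e, (S - S') e ≠ 0 → S e ≠ 0 ∨ S' e ≠ 0 := by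
    intro e he
    by_contra h4
    push Not at h4
    apply he
    simp [h4.1, h4.2]
  rcases path_case (z := z) (S := S) (S' := S') hm hmr p hp hr (fun e he => hor e (hcov e he))
    (fun e he => h1 e (hcov e he))
    (by
      rcases hor ex hex with h5 | h5
      · exact Or.inl ⟨ex, h5, hx⟩
      · exact Or.inr ⟨ex, h5, hx⟩)
    (by
      rcases hor ey hey with h5 | h5
      · exact Or.inl ⟨ey, h5, hy⟩
      · exact Or.inr ⟨ey, h5, hy⟩) with h6 | h6
  · exact hS h6
  · exact hS' h6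

theorem not_bad_zero (z : E → Fin k) (m r : ℕ) : ¬ Bad s d z m r (0 : E → ZMod q) := by
  rintro ⟨x, y, ⟨e, he, -⟩, -⟩
  exact he rfl

theorem path_uniq' {X : Type} {G : SimpleGraph X} {r : ℕ} (hg : ((2 * r : ℕ) : ℕ∞) < G.egirth)
    {u v : X} {p p' : G.Walk u v} (hp : p.IsPath) (hp' : p'.IsPath) (h : p.length ≤ r)
    (h' : p'.length ≤ r) : p = p' := by
  by_contra hne
  obtain ⟨w, -, -, c, hc, hl⟩ := hp.exists_isCycle_length_le_add_of_ne hp' hne
  have h1 := hg.trans_le (SimpleGraph.egirth_le_length hc)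
  have h2 : 2 * r < c.length := by exact_mod_cast h1
  omega

open Classical in
/-- The probability that two given vertices are joined by a clean path of length between `m` and
`r`. -/
theorem pair_card [Fintype E] [DecidableEq E] (hinj : ∀ e e', s e = s e' → d e = d e' → e = e') {m r : ℕ}
    (hg : ((2 * r : ℕ) : ℕ∞) < (gr s d Set.univ).egirth) (x y : U ⊕ V) :
    ((univ.filter fun z : E → Fin k => ∃ p : (gr s d Set.univ).Walk x y, p.IsPath ∧
        m ≤ p.length ∧ p.length ≤ r ∧
        ∀ e, s(Sum.inl (s e), Sum.inr (d e)) ∈ p.edges → z e ≠ 0).card : ℝ) ≤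
      (k : ℝ) ^ Fintype.card E * (1 - 1 / (k : ℝ)) ^ m := by
  have hk : (1 : ℝ) ≤ k := by exact_mod_cast Nat.pos_of_ne_zero (NeZero.ne k)
  have hk0 : 0 ≤ 1 - 1 / (k : ℝ) := by
    rw [sub_nonneg, div_le_one (by linarith)]
    exact hk
  have hk1 : 1 - 1 / (k : ℝ) ≤ 1 := by
    have : 0 ≤ 1 / (k : ℝ) := by positivity
    linarith
  by_cases h : ∃ p : (gr s d Set.univ).Walk x y, p.IsPath ∧ m ≤ p.length ∧ p.length ≤ r
  · obtain ⟨p, hp, hm, hr⟩ := h
    set S : Finset E := univ.filter fun e => s(Sum.inl (s e), Sum.inr (d e)) ∈ p.edges with hS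
    have hcard : S.card = p.length := by
      have h1 : p.edges.toFinset = S.image fun e => s(Sum.inl (s e), Sum.inr (d e)) := by
        ext x
        simp only [List.mem_toFinset, mem_image, hS, mem_filter, mem_univ, true_and]
        constructor
        · intro hx
          obtain ⟨e, -, rfl⟩ := mem_edgeSet (p.edges_subset_edgeSet hx)
          exact ⟨e, hx, rfl⟩
        · rintro ⟨e, he, rfl⟩
          exact he
      have h2 : p.edges.toFinset.card = p.length := by
        rw [List.toFinset_card_of_nodup hp.isTrail.edges_nodup, SimpleGraph.Walk.length_edges]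
      rw [← h2, h1, card_image_of_injective _ fun e e' h => edge_inj hinj h]
    have hcc := clean_card (k := k) S
    rw [hcard] at hcc
    calc _ ≤ ((univ.filter fun z : E → Fin k => ∀ e ∈ S, z e ≠ 0).card : ℝ) := by
          norm_cast
          apply card_le_card
          intro z hz
          simp only [mem_filter, mem_univ, true_and] at hz ⊢
          obtain ⟨p', hp', hm', hr', hz⟩ := hz
          have := path_uniq' hg hp' hp hr' hr
          subst this
          intro e he
          exact hz e (by simpa [hS] using he)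
      _ = (k : ℝ) ^ Fintype.card E * (1 - 1 / (k : ℝ)) ^ p.length := hcc
      _ ≤ _ := mul_le_mul_of_nonneg_left (pow_le_pow_of_le_one hk0 hk1 hm) (by positivity)
  · have : (univ.filter fun z : E → Fin k => ∃ p : (gr s d Set.univ).Walk x y, p.IsPath ∧
        m ≤ p.length ∧ p.length ≤ r ∧
        ∀ e, s(Sum.inl (s e), Sum.inr (d e)) ∈ p.edges → z e ≠ 0) = ∅ := by
      rw [filter_eq_empty_iff]
      rintro z - ⟨p, hp, hm, hr, -⟩
      exact h ⟨p, hp, hm, hr⟩
    rw [this]
    simp only [card_empty, Nat.cast_zero]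
    positivity

open Classical in
/-- The probability that a vector of small support is bad. -/
theorem bad_card [Fintype E] [DecidableEq E] (hinj : ∀ e e', s e = s e' → d e = d e' → e = e') {m r : ℕ}
    (hg : ((2 * r : ℕ) : ℕ∞) < (gr s d Set.univ).egirth) (S : E → ZMod q) {W : ℕ}
    (hW : (univ.filter fun e => S e ≠ 0).card ≤ W) :
    ((univ.filter fun z : E → Fin k => Bad s d z m r S).card : ℝ) ≤
      (k : ℝ) ^ Fintype.card E * ((2 * (W : ℝ)) ^ 2 * (1 - 1 / (k : ℝ)) ^ m) := by
  have hk : (1 : ℝ) ≤ k := by exact_mod_cast Nat.pos_of_ne_zero (NeZero.ne k)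
  have hk0 : 0 ≤ 1 - 1 / (k : ℝ) := by
    rw [sub_nonneg, div_le_one (by linarith)]
    exact hk
  set Q : Finset E := univ.filter fun e => S e ≠ 0 with hQ
  set VQ : Finset (U ⊕ V) := Q.image (fun e => Sum.inl (s e)) ∪ Q.image (fun e => Sum.inr (d e))
    with hVQ
  have hVQc : VQ.card ≤ 2 * W := by
    refine (card_union_le _ _).trans ?_
    have h1 := card_image_le (s := Q) (f := fun e => (Sum.inl (s e) : U ⊕ V))
    have h2 := card_image_le (s := Q) (f := fun e => (Sum.inr (d e) : U ⊕ V))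
    omega
  have hmem : ∀ w, Touch s d S w → w ∈ VQ := by
    rintro w ⟨e, he, hw⟩
    have heQ : e ∈ Q := by simpa [hQ] using he
    rw [hVQ, mem_union]
    rcases hw with rfl | rfl
    · exact Or.inl (mem_image_of_mem (fun e => (Sum.inl (s e) : U ⊕ V)) heQ)
    · exact Or.inr (mem_image_of_mem (fun e => (Sum.inr (d e) : U ⊕ V)) heQ)
  set Z2 : Finset (E → Fin k) := (VQ ×ˢ VQ).biUnion fun xy =>
    univ.filter fun z : E → Fin k => ∃ p : (gr s d Set.univ).Walk xy.1 xy.2, p.IsPath ∧
        m ≤ p.length ∧ p.length ≤ r ∧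
        ∀ e, s(Sum.inl (s e), Sum.inr (d e)) ∈ p.edges → z e ≠ 0 with hZ2
  have hsub : (univ.filter fun z : E → Fin k => Bad s d z m r S) ⊆ Z2 := by
    intro z hz
    simp only [mem_filter, mem_univ, true_and] at hz
    obtain ⟨x, y, hx, hy, hz⟩ := hz
    rw [hZ2, mem_biUnion]
    refine ⟨(x, y), mem_product.2 ⟨hmem x hx, hmem y hy⟩, ?_⟩
    simp only [mem_filter, mem_univ, true_and]
    exact hz
  have h1 : (Z2.card : ℝ) ≤ ∑ xy ∈ VQ ×ˢ VQ,
      (k : ℝ) ^ Fintype.card E * (1 - 1 / (k : ℝ)) ^ m := by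
    refine (Nat.cast_le.2 card_biUnion_le).trans ?_
    push_cast
    apply sum_le_sum
    intro xy _
    exact pair_card hinj hg xy.1 xy.2
  have h0 : ((univ.filter fun z : E → Fin k => Bad s d z m r S).card : ℝ) ≤ Z2.card := by
    exact_mod_cast card_le_card hsub
  refine (h0.trans h1).trans ?_
  rw [sum_const, card_product, nsmul_eq_mul]
  push_cast
  have h2 : (VQ.card : ℝ) ≤ 2 * W := by exact_mod_cast hVQc
  have h3 : (VQ.card : ℝ) * VQ.card ≤ (2 * (W : ℝ)) ^ 2 := by
    rw [sq]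
    gcongr
  calc (VQ.card : ℝ) * VQ.card * ((k : ℝ) ^ Fintype.card E * (1 - 1 / (k : ℝ)) ^ m)
      ≤ (2 * (W : ℝ)) ^ 2 * ((k : ℝ) ^ Fintype.card E * (1 - 1 / (k : ℝ)) ^ m) := by
        gcongr
    _ = _ := by ring

end Pool.Agent.KS6_62.QQ
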