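import Pool.Agent.KS6_62.QQ.Count

/-!
The lower bound for phase queries.
-/

set_option autoImplicit false

namespace Pool.Agent.KS6_62.QQ

open Finset
open Pool.Agent.T6.H63.LD (gr Phi Phi_apply noisy_card no_card)

variable {U V E Z : Type} [Fintype U] [Fintype V] [Fintype E] [DecidableEq E] [Fintype Z]
  {s : E → U} {d : E → V} {q : ℕ} [Fact q.Prime]

omit [Fintype U] [Fintype V] [DecidableEq E] in
theorem nsq_run (sh : Z → E → ZMod q) (Ug : ℕ → (Z → ℂ) →ₗ[ℂ] (Z → ℂ))
    (hU : ∀ t v, nsq (Ug t v) = nsq v) (v : Z → ℂ) (hv : nsq v = 1) (c : E → ZMod q) (t : ℕ) :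
    nsq (run sh Ug v c t) = 1 := by
  induction t with
  | zero => exact hv
  | succ t ih => rw [run, hU, nsq_ph, ih]

omit [Fintype U] [Fintype V] in
/-- supports stay small -/
theorem supp_st (sh : Z → E → ZMod q) (hsh : ∀ z, (univ.filter fun e => sh z e ≠ 0).card ≤ 1)
    (Ug : ℕ → (Z → ℂ) →ₗ[ℂ] (Z → ℂ)) (v : Z → ℂ) (t : ℕ) :
    (∀ S, st sh Ug v t S ≠ 0 → (univ.filter fun e => S e ≠ 0).card ≤ t) ∧
    ∀ S, O sh (st sh Ug v t) S ≠ 0 → (univ.filter fun e => S e ≠ 0).card ≤ t + 1 := by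
  have hstep : ∀ t, (∀ S, st sh Ug v t S ≠ 0 → (univ.filter fun e => S e ≠ 0).card ≤ t) →
      ∀ S, O sh (st sh Ug v t) S ≠ 0 → (univ.filter fun e => S e ≠ 0).card ≤ t + 1 := by
    intro t h S hS
    obtain ⟨z, hz⟩ : ∃ z, O sh (st sh Ug v t) S z ≠ 0 := by
      by_contra hcon
      push Not at hcon
      exact hS (funext hcon)
    have h1 := h (S - sh z) (by
      intro h0
      apply hz
      rw [O, h0]
      rfl)
    have h2 : (univ.filter fun e => S e ≠ 0) ⊆
        (univ.filter fun e => (S - sh z) e ≠ 0) ∪ univ.filter fun e => sh z e ≠ 0 := by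
      intro e he
      simp only [mem_filter, mem_univ, true_and, mem_union, Pi.sub_apply] at he ⊢
      by_cases h3 : sh z e = 0
      · left
        rwa [h3, sub_zero]
      · right
        exact h3
    exact (card_le_card h2).trans ((card_union_le _ _).trans (add_le_add h1 (hsh z)))
  have hall : ∀ t, ∀ S, st sh Ug v t S ≠ 0 → (univ.filter fun e => S e ≠ 0).card ≤ t := by
    intro t
    induction t with
    | zero =>
      intro S hS
      have : S = 0 := by
        by_contra h
        apply hS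
        ext z
        simp [st, h]
      simp [this]
    | succ t ih =>
      intro S hS
      apply hstep t ih S
      intro h0
      apply hS
      rw [st]
      simp only [h0, map_zero]
  exact ⟨hall t, hstep t (hall t)⟩

omit [Fintype U] [Fintype V] in
open Classical in
/-- average of the bad part -/
theorem avg {k : ℕ} [NeZero k] (hinj : ∀ e e', s e = s e' → d e = d e' → e = e') {m r : ℕ}
    (hg : ((2 * r : ℕ) : ℕ∞) < (gr s d Set.univ).egirth) (g : (E → ZMod q) → Z → ℂ)
    (hg1 : NU g = 1) {W : ℕ} (hW : ∀ S, g S ≠ 0 → (univ.filter fun e => S e ≠ 0).card ≤ W) :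
    ∑ z : E → Fin k, NU (res (fun S => ¬ ¬ Bad s d z m r S) g) ≤
      (k : ℝ) ^ Fintype.card E * √((2 * (W : ℝ)) ^ 2 * (1 - 1 / (k : ℝ)) ^ m) := by
  set Km : ℝ := (k : ℝ) ^ Fintype.card E with hKm
  set η : ℝ := (2 * (W : ℝ)) ^ 2 * (1 - 1 / (k : ℝ)) ^ m with hη
  have hk : (1 : ℝ) ≤ k := by exact_mod_cast Nat.pos_of_ne_zero (NeZero.ne k)
  have hk0 : 0 ≤ 1 - 1 / (k : ℝ) := by
    rw [sub_nonneg, div_le_one (by linarith)]
    exact hk
  have hη0 : 0 ≤ η := by positivity
  have hKm0 : 0 ≤ Km := by positivity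
  have hcardK : (Fintype.card (E → Fin k) : ℝ) = Km := by
    rw [Fintype.card_fun, Fintype.card_fin]
    push_cast
    rfl
  have hsum1 : ∑ S, nsq (g S) = 1 := by
    have h1 : NU g ^ 2 = ∑ S, nsq (g S) := Real.sq_sqrt (sum_nonneg fun _ _ => nsq_nonneg _)
    rw [← h1, hg1, one_pow]
  -- the sum of the squares
  have h1 : ∑ z : E → Fin k, NU (res (fun S => ¬ ¬ Bad s d z m r S) g) ^ 2 ≤ Km * η := by
    have h2 : ∀ z : E → Fin k, NU (res (fun S => ¬ ¬ Bad s d z m r S) g) ^ 2 =
        ∑ S, if Bad s d z m r S then nsq (g S) else 0 := by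
      intro z
      rw [NU, Real.sq_sqrt (sum_nonneg fun _ _ => nsq_nonneg _)]
      refine sum_congr rfl fun S _ => ?_
      by_cases h : Bad s d z m r S
      · simp [nsq, res, h]
      · simp [nsq, res, h]
    simp only [h2]
    rw [sum_comm]
    have h3 : ∀ S : E → ZMod q, ∑ z : E → Fin k, (if Bad s d z m r S then nsq (g S) else 0) ≤
        nsq (g S) * (Km * η) := by
      intro S
      by_cases hS : g S = 0
      · simp [hS, nsq]
      have h6 := bad_card (k := k) (m := m) hinj hg S (hW S hS)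
      have h7 : ∑ z : E → Fin k, (if Bad s d z m r S then nsq (g S) else 0) =
          nsq (g S) * ((univ.filter fun z : E → Fin k => Bad s d z m r S).card : ℝ) := by
        rw [← sum_filter, sum_const, nsmul_eq_mul, mul_comm]
      rw [h7]
      exact mul_le_mul_of_nonneg_left h6 (nsq_nonneg _)
    calc _ ≤ ∑ S, nsq (g S) * (Km * η) := sum_le_sum fun S _ => h3 S
      _ = Km * η := by rw [← sum_mul, hsum1, one_mul]
  have h4 := sq_sum_le_card_mul_sum_sq (s := (univ : Finset (E → Fin k)))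
    (f := fun z => NU (res (fun S => ¬ ¬ Bad s d z m r S) g))
  rw [card_univ, hcardK] at h4
  have h5 : (∑ z : E → Fin k, NU (res (fun S => ¬ ¬ Bad s d z m r S) g)) ^ 2 ≤ Km ^ 2 * η := by
    calc _ ≤ Km * ∑ z : E → Fin k, NU (res (fun S => ¬ ¬ Bad s d z m r S) g) ^ 2 := h4
      _ ≤ Km * (Km * η) := mul_le_mul_of_nonneg_left h1 hKm0
      _ = _ := by ring
  calc _ ≤ √(Km ^ 2 * η) := Real.le_sqrt_of_sq_le h5
    _ = Km * √η := by rw [Real.sqrt_mul (by positivity), Real.sqrt_sq hKm0]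

open Classical in
/-- the counting form of the lower bound -/
theorem core (hinj : ∀ e e', s e = s e' → d e = d e' → e = e') {r : ℕ}
    (hg : ((2 * r : ℕ) : ℕ∞) < (gr s d Set.univ).egirth) {δ ε : ℝ} (hδ : 0 < δ)
    (hδ1 : δ ≤ 1 / 4) (hε : 0 < ε)
    (hm : 3 * ((Fintype.card U : ℝ) + Fintype.card V + 1) ≤ δ * Fintype.card E)
    (hq : 1 / δ ^ 3 ≤ q) (T : ℕ)
    (sh : Z → E → ZMod q) (hsh : ∀ z, (univ.filter fun e => sh z e ≠ 0).card ≤ 1)
    (Ug : ℕ → (Z → ℂ) →ₗ[ℂ] (Z → ℂ)) (hU : ∀ t v, nsq (Ug t v) = nsq v) (v : Z → ℂ)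
    (hv : nsq v = 1) (M : (Z → ℂ) →ₗ[ℂ] (Z → ℂ)) (hM : ∀ v, nsq (M v) ≤ nsq v)
    (hyes : ∀ c : E → ZMod q, (∃ (x : U → ZMod q) (y : V → ZMod q),
        (1 - ε) * Fintype.card E ≤ ((univ.filter fun e => y (d e) = x (s e) + c e).card : ℝ)) →
        2 / 3 ≤ nsq (M (run sh Ug v c T)))
    (hno : ∀ c : E → ZMod q, (∀ (x : U → ZMod q) (y : V → ZMod q),
        ((univ.filter fun e => y (d e) = x (s e) + c e).card : ℝ) ≤ δ * Fintype.card E) →
        nsq (M (run sh Ug v c T)) ≤ 1 / 3)
    (k : ℕ) [NeZero k] (hk : 8 ≤ k * ε) (m : ℕ) (hmr : m ≤ r) (hmr' : 2 * m ≤ r + 1) :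
    12 / 100 ≤ 2 * T * √((2 * (T : ℝ)) ^ 2 * (1 - 1 / (k : ℝ)) ^ m) := by
  set η : ℝ := (2 * (T : ℝ)) ^ 2 * (1 - 1 / (k : ℝ)) ^ m with hη
  have hk1 : (1 : ℝ) ≤ k := by exact_mod_cast Nat.pos_of_ne_zero (NeZero.ne k)
  have hk0 : (0 : ℝ) < k := by linarith
  have hkk : 0 ≤ 1 - 1 / (k : ℝ) := by
    rw [sub_nonneg, div_le_one (by linarith)]
    exact hk1
  have hq0 : (0 : ℝ) < q := by exact_mod_cast (Fact.out : q.Prime).pos
  have hm0 : 0 < Fintype.card E := by
    by_contra h
    have h0 : Fintype.card E = 0 := by omega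
    rw [h0] at hm
    have h1 : (0 : ℝ) ≤ Fintype.card U := by positivity
    have h2 : (0 : ℝ) ≤ Fintype.card V := by positivity
    simp only [Nat.cast_zero, mul_zero] at hm
    linarith
  have hCcard : (Fintype.card (E → ZMod q) : ℝ) = (q : ℝ) ^ Fintype.card E := by
    rw [Fintype.card_fun, ZMod.card]
    push_cast
    rfl
  set C : ℝ := (q : ℝ) ^ Fintype.card E with hC
  set Km : ℝ := (k : ℝ) ^ Fintype.card E with hKm
  have hcardK : (Fintype.card (E → Fin k) : ℝ) = Km := by
    rw [Fintype.card_fun, Fintype.card_fin]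
    push_cast
    rfl
  have hC0 : 0 < C := by positivity
  have hKm0 : 0 < Km := by positivity
  let P := (U → ZMod q) × (V → ZMod q) × (E → ZMod q)
  have hP0 : (0 : ℝ) < Fintype.card P := by
    exact_mod_cast Fintype.card_pos_iff.2 ⟨0⟩
  -- acceptance probability
  let ac : (E → ZMod q) → ℝ := fun c => nsq (M (run sh Ug v c T))
  have hac0 : ∀ c, 0 ≤ ac c := fun c => nsq_nonneg _
  have hac1 : ∀ c, ac c ≤ 1 := fun c => (hM _).trans (nsq_run sh Ug hU v hv c T).le
  -- comparison
  set pu : ℝ := (∑ c : E → ZMod q, ac c) / C with hpu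
  let pk : (E → Fin k) → ℝ := fun z => (∑ p : P, ac (Phi s d q z p)) / Fintype.card P
  have hcmp : ∀ z : E → Fin k, √(pk z) ≤ √pu +
      ∑ t ∈ range T, (NU (res (fun S => ¬ ¬ Bad s d z m r S) (O sh (st sh Ug v t))) +
        NU (res (fun S => ¬ ¬ Bad s d z m r S) (st sh Ug v t))) := by
    intro z
    have h1 := compare (Phi s d q z).toAddMonoidHom (fun S => ¬ Bad s d z m r S)
      (not_bad_zero z m r) (fun S S' h2 h3 h4 => sep hinj hg hmr' hmr z S S' h2 h3 h4)
      sh Ug hU v M hM T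
    rw [hCcard] at h1
    exact h1
  -- sum over the statuses
  have hbad : ∑ z : E → Fin k, ∑ t ∈ range T,
      (NU (res (fun S => ¬ ¬ Bad s d z m r S) (O sh (st sh Ug v t))) +
        NU (res (fun S => ¬ ¬ Bad s d z m r S) (st sh Ug v t))) ≤ Km * (2 * T * √η) := by
    rw [sum_comm]
    calc _ ≤ ∑ _t ∈ range T, Km * (2 * √η) := by
          refine sum_le_sum fun t ht => ?_
          have ht' : t + 1 ≤ T := mem_range.1 ht
          rw [sum_add_distrib]
          have h1 := avg (k := k) (m := m) hinj hg (O sh (st sh Ug v t)) (W := T)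
            (by rw [NU_O, NU_st sh Ug hU v hv])
            (fun S hS => ((supp_st sh hsh Ug v t).2 S hS).trans ht')
          have h2 := avg (k := k) (m := m) hinj hg (st sh Ug v t) (W := T)
            (NU_st sh Ug hU v hv t)
            (fun S hS => ((supp_st sh hsh Ug v t).1 S hS).trans (by omega))
          calc _ ≤ Km * √η + Km * √η := add_le_add h1 h2
            _ = _ := by ring
      _ = _ := by
          rw [sum_const, card_range, nsmul_eq_mul]
          ring
  have hsum : ∑ z : E → Fin k, √(pk z) ≤ Km * √pu + Km * (2 * T * √η) := by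
    calc _ ≤ ∑ z : E → Fin k, (√pu +
        ∑ t ∈ range T, (NU (res (fun S => ¬ ¬ Bad s d z m r S) (O sh (st sh Ug v t))) +
          NU (res (fun S => ¬ ¬ Bad s d z m r S) (st sh Ug v t)))) :=
          sum_le_sum fun z _ => hcmp z
      _ = Km * √pu + _ := by
          rw [sum_add_distrib, sum_const, card_univ, nsmul_eq_mul, hcardK]
      _ ≤ _ := add_le_add le_rfl hbad
  -- the uniform distribution
  have hnull : pu ≤ 67 / 192 := by
    rw [hpu, div_le_iff₀ hC0]
    set S := univ.filter fun c : E → ZMod q => ∃ (x : U → ZMod q) (y : V → ZMod q),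
        δ * Fintype.card E < ((univ.filter fun e => y (d e) = x (s e) + c e).card : ℝ) with hS
    have h1 : (S.card : ℝ) ≤ C * (1 / 64) := no_card hδ hδ1 hm hq
    have h2 : ∀ c, ac c ≤ 1 / 3 + if c ∈ S then 1 else 0 := by
      intro c
      by_cases hc : c ∈ S
      · rw [if_pos hc]
        have := hac1 c
        linarith
      · rw [if_neg hc, add_zero]
        apply hno c
        intro x y
        by_contra h
        push Not at h
        apply hc
        rw [hS, mem_filter]
        exact ⟨mem_univ _, x, y, h⟩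
    calc ∑ c, ac c ≤ ∑ c : E → ZMod q, (1 / 3 + if c ∈ S then (1 : ℝ) else 0) :=
          sum_le_sum fun c _ => h2 c
      _ = C * (1 / 3) + S.card := by
          rw [sum_add_distrib, sum_const, card_univ, nsmul_eq_mul, hCcard, Finset.sum_boole]
          congr 2
          simp
      _ ≤ _ := by linarith
  have hsq : √pu ≤ 0.5908 := by
    rw [Real.sqrt_le_left (by norm_num)]
    refine hnull.trans ?_
    norm_num
  -- the planted distribution
  have hplant : 7 / 8 * Km * 0.816 ≤ ∑ z : E → Fin k, √(pk z) := by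
    set N := univ.filter fun z : E → Fin k =>
        ε * Fintype.card E < ((univ.filter fun e => z e = 0).card : ℝ) with hN
    have h1 : (N.card : ℝ) ≤ Km * (1 / 8) := by
      refine (noisy_card hε hm0).trans ?_
      gcongr
    have h2 : ∀ z ∈ Nᶜ, (0.816 : ℝ) ≤ √(pk z) := by
      intro z hz
      have h3 : ∀ p : P, 2 / 3 ≤ ac (Phi s d q z p) := by
        intro p
        exact hyes (Phi s d q z p) ⟨p.1, p.2.1, by
          have h5 : (univ.filter fun e => z e ≠ 0) ⊆
              univ.filter fun e => p.2.1 (d e) = p.1 (s e) + Phi s d q z p e := by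
            intro e he
            simp only [mem_filter, mem_univ, true_and] at he ⊢
            rw [Phi_apply, if_neg he]
            ring
          have h6 : ((univ.filter fun e => z e ≠ 0).card : ℝ) =
              Fintype.card E - (univ.filter fun e => z e = 0).card := by
            have := card_filter_add_card_filter_not (s := (univ : Finset E)) (fun e => z e = 0)
            rw [card_univ] at this
            rw [← this]
            push_cast
            ring
          have h7 : ((univ.filter fun e => z e = 0).card : ℝ) ≤ ε * Fintype.card E := by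
            by_contra h
            push Not at h
            rw [mem_compl] at hz
            apply hz
            rw [hN, mem_filter]
            exact ⟨mem_univ _, h⟩
          calc (1 - ε) * (Fintype.card E : ℝ) ≤ ((univ.filter fun e => z e ≠ 0).card : ℝ) := by
                rw [h6]
                linarith
            _ ≤ _ := by exact_mod_cast card_le_card h5⟩
      have h4 : 2 / 3 ≤ pk z := by
        rw [le_div_iff₀ hP0]
        calc 2 / 3 * (Fintype.card P : ℝ) = ∑ _p : P, (2 / 3 : ℝ) := by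
              rw [sum_const, card_univ, nsmul_eq_mul, mul_comm]
          _ ≤ _ := sum_le_sum fun p _ => h3 p
      apply Real.le_sqrt_of_sq_le
      refine le_trans ?_ h4
      norm_num
    have h3 : (Nᶜ.card : ℝ) = Km - N.card := by
      rw [card_compl, Nat.cast_sub (card_le_univ _), hcardK]
    calc 7 / 8 * Km * 0.816 ≤ (Nᶜ.card : ℝ) * 0.816 := by
          rw [h3]
          linarith
      _ = ∑ _z ∈ Nᶜ, (0.816 : ℝ) := by rw [sum_const, nsmul_eq_mul]
      _ ≤ ∑ z ∈ Nᶜ, √(pk z) := sum_le_sum h2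
      _ ≤ _ := sum_le_sum_of_subset_of_nonneg (subset_univ _) fun z _ _ => Real.sqrt_nonneg _
  have h1 : Km * (7 / 8 * 0.816) ≤ Km * (0.5908 + 2 * T * √η) := by
    calc Km * (7 / 8 * 0.816) = 7 / 8 * Km * 0.816 := by ring
      _ ≤ Km * √pu + Km * (2 * T * √η) := hplant.trans hsum
      _ ≤ Km * 0.5908 + Km * (2 * T * √η) := by gcongr
      _ = _ := by ring
  have h2 := le_of_mul_le_mul_left h1 hKm0
  norm_num at h2 ⊢
  linarith

open Classical in
/-- the lower bound for phase queries -/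
theorem lower (hinj : ∀ e e', s e = s e' → d e = d e' → e = e') {r : ℕ}
    (hg : ((2 * r : ℕ) : ℕ∞) < (gr s d Set.univ).egirth) {δ ε : ℝ} (hδ : 0 < δ)
    (hδ1 : δ ≤ 1 / 4) (hε : 0 < ε) (hε1 : ε ≤ 1)
    (hm : 3 * ((Fintype.card U : ℝ) + Fintype.card V + 1) ≤ δ * Fintype.card E)
    (hq : 1 / δ ^ 3 ≤ q) (T : ℕ)
    (sh : Z → E → ZMod q) (hsh : ∀ z, (univ.filter fun e => sh z e ≠ 0).card ≤ 1)
    (Ug : ℕ → (Z → ℂ) →ₗ[ℂ] (Z → ℂ)) (hU : ∀ t v, nsq (Ug t v) = nsq v) (v : Z → ℂ)
    (hv : nsq v = 1) (M : (Z → ℂ) →ₗ[ℂ] (Z → ℂ)) (hM : ∀ v, nsq (M v) ≤ nsq v)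
    (hyes : ∀ c : E → ZMod q, (∃ (x : U → ZMod q) (y : V → ZMod q),
        (1 - ε) * Fintype.card E ≤ ((univ.filter fun e => y (d e) = x (s e) + c e).card : ℝ)) →
        2 / 3 ≤ nsq (M (run sh Ug v c T)))
    (hno : ∀ c : E → ZMod q, (∀ (x : U → ZMod q) (y : V → ZMod q),
        ((univ.filter fun e => y (d e) = x (s e) + c e).card : ℝ) ≤ δ * Fintype.card E) →
        nsq (M (run sh Ug v c T)) ≤ 1 / 3) :
    Real.exp (ε * r / 72) ≤ 6 * T := by
  set k := ⌈8 / ε⌉₊ with hkdef
  have hk8 : 8 / ε ≤ k := Nat.le_ceil _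
  have hk9 : (k : ℝ) ≤ 9 / ε := by
    have h1 : (k : ℝ) < 8 / ε + 1 := Nat.ceil_lt_add_one (by positivity)
    have h2 : (1 : ℝ) ≤ 1 / ε := by
      rw [le_div_iff₀ hε]
      linarith
    have h3 : 9 / ε = 8 / ε + 1 / ε := by ring
    linarith
  have hk0 : (0 : ℝ) < k := lt_of_lt_of_le (by positivity) hk8
  have hk1 : (1 : ℝ) ≤ k := by
    have : 0 < k := by exact_mod_cast hk0
    exact_mod_cast this
  have : NeZero k := ⟨by
    have : 0 < k := by exact_mod_cast hk0
    omega⟩
  have hkε : 8 ≤ k * ε := by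
    rw [div_le_iff₀ hε] at hk8
    exact hk8
  set m := (r + 1) / 2 with hmdef
  have hm1 : 2 * m ≤ r + 1 := by omega
  have hm2 : r ≤ 2 * m := by omega
  have hm2' : (r : ℝ) ≤ 2 * m := by exact_mod_cast hm2
  have hcore := core hinj hg hδ hδ1 hε hm hq T sh hsh Ug hU v hv M hM hyes hno k hkε m
    (by omega) hm1
  have hpow : (1 - 1 / (k : ℝ)) ^ m ≤ Real.exp (-(r / (4 * k))) ^ 2 := by
    have h1 : 1 - 1 / (k : ℝ) ≤ Real.exp (-(1 / k)) := by
      have := Real.add_one_le_exp (-(1 / (k : ℝ)))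
      linarith
    have h0 : 0 ≤ 1 - 1 / (k : ℝ) := by
      rw [sub_nonneg, div_le_one hk0]
      exact hk1
    calc (1 - 1 / (k : ℝ)) ^ m ≤ Real.exp (-(1 / k)) ^ m := by gcongr
      _ = Real.exp (-(m / k)) := by
          rw [← Real.exp_nat_mul]
          congr 1
          ring
      _ ≤ Real.exp (-(r / (2 * k))) := by
          apply Real.exp_le_exp.2
          apply neg_le_neg
          rw [div_le_div_iff₀ (by positivity) hk0]
          nlinarith
      _ = _ := by
          rw [← Real.exp_nat_mul]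
          congr 1
          push_cast
          field_simp
          ring
  have hT0 : (0 : ℝ) ≤ T := by positivity
  have h1 : √((2 * (T : ℝ)) ^ 2 * (1 - 1 / (k : ℝ)) ^ m) ≤
      2 * T * Real.exp (-(r / (4 * k))) := by
    rw [Real.sqrt_le_left (by positivity), mul_pow (2 * (T : ℝ))]
    gcongr
  have h2 : 12 / 100 ≤ 4 * (T : ℝ) ^ 2 * Real.exp (-(r / (4 * k))) := by
    calc (12 / 100 : ℝ) ≤ 2 * T * √((2 * (T : ℝ)) ^ 2 * (1 - 1 / (k : ℝ)) ^ m) := hcore
      _ ≤ 2 * T * (2 * T * Real.exp (-(r / (4 * k)))) := by gcongr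
      _ = _ := by ring
  have h3 : Real.exp (r / (8 * k)) ^ 2 ≤ (6 * T) ^ 2 := by
    have h4 : Real.exp ((r : ℝ) / (8 * k)) ^ 2 = Real.exp (r / (4 * k)) := by
      rw [← Real.exp_nat_mul]
      congr 1
      push_cast
      field_simp
      ring
    have h5 : Real.exp (-((r : ℝ) / (4 * k))) * Real.exp (r / (4 * k)) = 1 := by
      rw [← Real.exp_add]
      simp
    have h6 := mul_le_mul_of_nonneg_right h2 (Real.exp_pos ((r : ℝ) / (4 * k))).le
    rw [mul_assoc, h5, mul_one] at h6
    rw [h4]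
    have h7 : 0 ≤ (T : ℝ) ^ 2 := by positivity
    calc Real.exp ((r : ℝ) / (4 * k)) ≤ 100 / 12 * (4 * (T : ℝ) ^ 2) := by linarith
      _ ≤ (6 * T) ^ 2 := by nlinarith
  have h4 : Real.exp (r / (8 * k)) ≤ 6 * T := le_of_sq_le_sq h3 (by positivity)
  refine le_trans ?_ h4
  apply Real.exp_le_exp.2
  rw [div_le_div_iff₀ (by norm_num) (by positivity)]
  have h7 : (k : ℝ) * ε ≤ 9 := by
    rw [le_div_iff₀ hε] at hk9
    exact hk9
  have h8 : (0 : ℝ) ≤ r := by positivity
  nlinarith

end Pool.Agent.KS6_62.QQ
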