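import Mathlib

/-!
Completeness one: clusters of small radius, and the test of a random edge.
-/

set_option autoImplicit false

namespace Pool.Agent.KS6_62.QQ

open Finset

section cluster

variable {X E : Type} {q : ℕ} {a b : E → X}

/-- The label of `v` is determined by the label of `w` and at most `n` shifts. -/
def Conn (a b : E → X) (q n : ℕ) (w v : X) : Prop :=
  ∃ (Q : Finset E) (f : (E → ZMod q) → ZMod q), Q.card ≤ n ∧
    (∀ c c' : E → ZMod q, (∀ e ∈ Q, c e = c' e) → f c = f c') ∧
    ∀ (c : E → ZMod q) (l : X → ZMod q), (∀ e, l (b e) = l (a e) + c e) → l v = l w + f c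

theorem Conn.refl (n : ℕ) (w : X) : Conn a b q n w w :=
  ⟨∅, fun _ => 0, by simp, fun _ _ _ => rfl, fun _ _ _ => by simp⟩

theorem Conn.mono {n n' : ℕ} (h : n ≤ n') {w v : X} (hc : Conn a b q n w v) :
    Conn a b q n' w v := by
  obtain ⟨Q, f, h1, h2, h3⟩ := hc
  exact ⟨Q, f, h1.trans h, h2, h3⟩

theorem Conn.fwd {n : ℕ} {w : X} {e : E} (hc : Conn a b q n w (a e)) :
    Conn a b q (n + 1) w (b e) := by
  classical
  obtain ⟨Q, f, h1, h2, h3⟩ := hc
  refine ⟨insert e Q, fun c => f c + c e, ?_, ?_, ?_⟩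
  · exact (card_insert_le _ _).trans (by omega)
  · intro c c' h
    simp only
    rw [h2 c c' fun e' he' => h e' (mem_insert_of_mem he'), h e (mem_insert_self _ _)]
  · intro c l h
    rw [h e, h3 c l h, add_assoc]

theorem Conn.bwd {n : ℕ} {w : X} {e : E} (hc : Conn a b q n w (b e)) :
    Conn a b q (n + 1) w (a e) := by
  classical
  obtain ⟨Q, f, h1, h2, h3⟩ := hc
  refine ⟨insert e Q, fun c => f c - c e, ?_, ?_, ?_⟩
  · exact (card_insert_le _ _).trans (by omega)
  · intro c c' h
    simp only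
    rw [h2 c c' fun e' he' => h e' (mem_insert_of_mem he'), h e (mem_insert_self _ _)]
  · intro c l h
    have h4 := h3 c l h
    have h5 := h e
    rw [add_sub_assoc', ← h4, h5, add_sub_cancel_right]

variable [Fintype E]

open Classical in
/-- edges with both ends in `Y` -/
noncomputable def ins (a b : E → X) (Y : Finset X) : Finset E :=
  univ.filter fun e => a e ∈ Y ∧ b e ∈ Y

open Classical in
/-- edges inside `Y` with exactly one end in `B` -/
noncomputable def bd (a b : E → X) (Y B : Finset X) : Finset E :=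
  univ.filter fun e => (a e ∈ Y ∧ b e ∈ Y) ∧ ((a e ∈ B ∧ b e ∉ B) ∨ (a e ∉ B ∧ b e ∈ B))

open Classical in
/-- growing a ball inside `Y` -/
noncomputable def grow (a b : E → X) (Y B : Finset X) : Finset X :=
  B ∪ ((bd a b Y B).image a ∪ (bd a b Y B).image b)

open Classical in
theorem grow_spec {Y B : Finset X} (hB : B ⊆ Y) {w : X} {n : ℕ}
    (hc : ∀ v ∈ B, Conn a b q n w v) :
    B ⊆ grow a b Y B ∧ grow a b Y B ⊆ Y ∧ (∀ v ∈ grow a b Y B, Conn a b q (n + 1) w v) ∧
      (ins a b B).card + (bd a b Y B).card ≤ (ins a b (grow a b Y B)).card := by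
  have h1 : B ⊆ grow a b Y B := subset_union_left
  refine ⟨h1, ?_, ?_, ?_⟩
  · intro v hv
    rw [grow, mem_union, mem_union] at hv
    rcases hv with h | h | h
    · exact hB h
    · obtain ⟨e, he, rfl⟩ := mem_image.1 h
      exact (mem_filter.1 he).2.1.1
    · obtain ⟨e, he, rfl⟩ := mem_image.1 h
      exact (mem_filter.1 he).2.1.2
  · intro v hv
    rw [grow, mem_union, mem_union] at hv
    rcases hv with h | h | h
    · exact (hc v h).mono (by omega)
    · obtain ⟨e, he, rfl⟩ := mem_image.1 h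
      rcases (mem_filter.1 he).2.2 with ⟨h2, -⟩ | ⟨-, h2⟩
      · exact (hc _ h2).mono (by omega)
      · exact (hc _ h2).bwd
    · obtain ⟨e, he, rfl⟩ := mem_image.1 h
      rcases (mem_filter.1 he).2.2 with ⟨h2, -⟩ | ⟨-, h2⟩
      · exact (hc _ h2).fwd
      · exact (hc _ h2).mono (by omega)
  · have hdisj : Disjoint (ins a b B) (bd a b Y B) := by
      rw [disjoint_left]
      intro e he he'
      have h2 := (mem_filter.1 he).2
      have h3 := (mem_filter.1 he').2.2
      tauto
    rw [← card_union_of_disjoint hdisj]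
    apply card_le_card
    intro e he
    rw [mem_union] at he
    rw [ins, mem_filter]
    refine ⟨mem_univ _, ?_⟩
    rcases he with h | h
    · have h2 := (mem_filter.1 h).2
      exact ⟨h1 h2.1, h1 h2.2⟩
    · refine ⟨?_, ?_⟩
      · rw [grow, mem_union, mem_union]
        exact Or.inr (Or.inl (mem_image_of_mem _ h))
      · rw [grow, mem_union, mem_union]
        exact Or.inr (Or.inr (mem_image_of_mem _ h))

open Classical in
/-- a ball with small boundary -/
theorem exists_ball {Y : Finset X} {e₀ : E} (he : a e₀ ∈ Y ∧ b e₀ ∈ Y) {η : ℝ} (hη : 0 < η) {R : ℕ}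
    (hR : (Fintype.card E : ℝ) ≤ (1 + η) ^ R) :
    ∃ B : Finset X, B ⊆ Y ∧ a e₀ ∈ B ∧ (∀ v ∈ B, Conn a b q (R + 1) (a e₀) v) ∧
      ((bd a b Y B).card : ℝ) ≤ η * (ins a b B).card := by
  by_contra hcon
  push Not at hcon
  have key : ∀ n, n ≤ R + 1 → ∃ B : Finset X, B ⊆ Y ∧ a e₀ ∈ B ∧ b e₀ ∈ B ∧
      (∀ v ∈ B, Conn a b q (n + 1) (a e₀) v) ∧ (1 + η) ^ n ≤ ((ins a b B).card : ℝ) := by
    intro n
    induction n with
    | zero =>
      intro _
      refine ⟨{a e₀, b e₀}, ?_, by simp, by simp, ?_, ?_⟩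
      · intro v hv
        rw [mem_insert, mem_singleton] at hv
        rcases hv with rfl | rfl
        · exact he.1
        · exact he.2
      · intro v hv
        rw [mem_insert, mem_singleton] at hv
        rcases hv with rfl | rfl
        · exact Conn.refl _ _
        · exact (Conn.refl 0 _).fwd
      · rw [pow_zero]
        have : 0 < (ins a b {a e₀, b e₀}).card := by
          rw [card_pos]
          exact ⟨e₀, by simp [ins]⟩
        exact_mod_cast this
    | succ n ih =>
      intro hn
      obtain ⟨B, hB, ha, hb, hc, hcard⟩ := ih (by omega)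
      have h1 := hcon B hB ha (fun v hv => (hc v hv).mono (by omega))
      obtain ⟨h2, h3, h4, h5⟩ := grow_spec hB hc
      refine ⟨grow a b Y B, h3, h2 ha, h2 hb, h4, ?_⟩
      have h6 : ((ins a b B).card : ℝ) + (bd a b Y B).card ≤ (ins a b (grow a b Y B)).card := by
        exact_mod_cast h5
      calc (1 + η) ^ (n + 1) = (1 + η) * (1 + η) ^ n := by ring
        _ ≤ (1 + η) * (ins a b B).card := by gcongr
        _ ≤ _ := by linarith
  obtain ⟨B, -, -, -, -, hcard⟩ := key (R + 1) le_rfl
  have h1 : ((ins a b B).card : ℝ) ≤ Fintype.card E := by exact_mod_cast card_le_univ _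
  have h2 : (1 + η) ^ (R + 1) ≤ (1 + η) ^ R := hcard.trans (h1.trans hR)
  rw [pow_succ] at h2
  have h3 : 0 < (1 + η) ^ R := by positivity
  nlinarith

open Classical in
/-- clusters -/
theorem exists_clusters {η : ℝ} (hη : 0 < η) {R : ℕ} (hR : (Fintype.card E : ℝ) ≤ (1 + η) ^ R) :
    ∀ (n : ℕ) (Y : Finset X), Y.card = n → ∃ (K : Finset E) (ρ : X → X),
      K ⊆ ins a b Y ∧ ((ins a b Y \ K).card : ℝ) ≤ η * (ins a b Y).card ∧
      (∀ v ∈ Y, Conn a b q (R + 1) (ρ v) v) ∧ ∀ e ∈ K, ρ (a e) = ρ (b e) := by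
  intro n
  induction n using Nat.strong_induction_on with
  | _ n ih =>
  intro Y hY
  by_cases hE : ∃ e₀, a e₀ ∈ Y ∧ b e₀ ∈ Y
  · obtain ⟨e₀, he⟩ := hE
    obtain ⟨B, hB, haB, hc, hbd⟩ := exists_ball (q := q) he hη hR
    have hlt : (Y \ B).card < n := by
      rw [← hY]
      apply card_lt_card
      rw [ssubset_iff_of_subset sdiff_subset]
      exact ⟨a e₀, he.1, by simp [haB]⟩
    obtain ⟨K, ρ, hK1, hK2, hK3, hK4⟩ := ih _ hlt (Y \ B) rfl
    have hKnot : ∀ e ∈ K, a e ∉ B ∧ b e ∉ B := by
      intro e he'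
      have := (mem_filter.1 (hK1 he')).2
      rw [mem_sdiff, mem_sdiff] at this
      exact ⟨this.1.2, this.2.2⟩
    refine ⟨ins a b B ∪ K, fun v => if v ∈ B then a e₀ else ρ v, ?_, ?_, ?_, ?_⟩
    · intro e he'
      rw [mem_union] at he'
      rw [ins, mem_filter]
      refine ⟨mem_univ _, ?_⟩
      rcases he' with h | h
      · have h2 := (mem_filter.1 h).2
        exact ⟨hB h2.1, hB h2.2⟩
      · have h2 := (mem_filter.1 (hK1 h)).2
        rw [mem_sdiff, mem_sdiff] at h2
        exact ⟨h2.1.1, h2.2.1⟩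
    · have h1 : ins a b Y \ (ins a b B ∪ K) ⊆ bd a b Y B ∪ (ins a b (Y \ B) \ K) := by
        intro e he'
        simp only [ins, bd, mem_sdiff, mem_union, mem_filter, mem_univ, true_and] at he' ⊢
        tauto
      have h2 : (ins a b B).card + (ins a b (Y \ B)).card ≤ (ins a b Y).card := by
        rw [← card_union_of_disjoint]
        · apply card_le_card
          intro e he'
          simp only [ins, mem_sdiff, mem_union, mem_filter, mem_univ, true_and] at he' ⊢
          rcases he' with h | h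
          · exact ⟨hB h.1, hB h.2⟩
          · exact ⟨h.1.1, h.2.1⟩
        · rw [disjoint_left]
          intro e h3 h4
          have h5 := (mem_filter.1 h3).2
          have h6 := (mem_filter.1 h4).2
          rw [mem_sdiff] at h6
          exact h6.1.2 h5.1
      have h3 : ((ins a b Y \ (ins a b B ∪ K)).card : ℝ) ≤
          (bd a b Y B).card + (ins a b (Y \ B) \ K).card := by
        exact_mod_cast (card_le_card h1).trans (card_union_le _ _)
      have h4 : ((ins a b B).card : ℝ) + (ins a b (Y \ B)).card ≤ (ins a b Y).card := by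
        exact_mod_cast h2
      calc _ ≤ ((bd a b Y B).card : ℝ) + (ins a b (Y \ B) \ K).card := h3
        _ ≤ η * (ins a b B).card + η * (ins a b (Y \ B)).card := add_le_add hbd hK2
        _ = η * ((ins a b B).card + (ins a b (Y \ B)).card) := by ring
        _ ≤ _ := by gcongr
    · intro v hv
      simp only
      by_cases h : v ∈ B
      · rw [if_pos h]
        exact hc v h
      · rw [if_neg h]
        exact hK3 v (mem_sdiff.2 ⟨hv, h⟩)
    · intro e he'
      simp only
      rw [mem_union] at he'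
      rcases he' with h | h
      · have h2 := (mem_filter.1 h).2
        rw [if_pos h2.1, if_pos h2.2]
      · have h2 := hKnot e h
        rw [if_neg h2.1, if_neg h2.2]
        exact hK4 e h
  · have h0 : ins a b Y = ∅ := by
      rw [ins, filter_eq_empty_iff]
      intro e _ h
      exact hE ⟨e, h⟩
    refine ⟨∅, id, by simp, ?_, fun v _ => Conn.refl _ _, by simp⟩
    rw [h0]
    simp

end cluster

open Classical in
/-- The test of a random edge. -/
theorem perfect {U V E : Type} [Fintype U] [Fintype V] [Fintype E] [Nonempty E] (s : E → U)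
    (d : E → V) (q : ℕ) {η : ℝ} (hη : 0 < η) (hη1 : η ≤ 1) :
    ∃ (ask : E → Finset E) (acc : E → (E → ZMod q) → Prop),
      (∀ o c c', (∀ e ∈ ask o, c e = c' e) → (acc o c ↔ acc o c')) ∧
      (∀ o, ((ask o).card : ℝ) ≤ 4 * Real.log (Fintype.card E) / η + 5) ∧
      (∀ c, (∃ (x : U → ZMod q) (y : V → ZMod q), ∀ e, y (d e) = x (s e) + c e) →
        ∀ o, acc o c) ∧
      ∀ c, ∃ (x : U → ZMod q) (y : V → ZMod q),
        ((univ.filter fun o => acc o c).card : ℝ) ≤
          η * Fintype.card E + (univ.filter fun e => y (d e) = x (s e) + c e).card := by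
  have hE : (1 : ℝ) ≤ Fintype.card E := by
    have : 0 < Fintype.card E := Fintype.card_pos
    exact_mod_cast this
  set R := ⌈2 * Real.log (Fintype.card E) / η⌉₊ with hR
  have hlog0 : 0 ≤ Real.log (Fintype.card E) := Real.log_nonneg hE
  have hR1 : (R : ℝ) ≤ 2 * Real.log (Fintype.card E) / η + 1 :=
    (Nat.ceil_lt_add_one (by positivity)).le
  have hR2 : (Fintype.card E : ℝ) ≤ (1 + η) ^ R := by
    have h1 : η / 2 ≤ Real.log (1 + η) := by
      have h2 := Real.one_sub_inv_le_log_of_pos (x := 1 + η) (by linarith)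
      refine le_trans ?_ h2
      rw [le_sub_iff_add_le]
      have h3 : (1 + η)⁻¹ ≤ 1 - η / 2 := by
        rw [inv_le_iff_one_le_mul₀ (by linarith)]
        nlinarith
      linarith
    have h2 : Real.log (Fintype.card E) ≤ R * Real.log (1 + η) := by
      have h3 : 2 * Real.log (Fintype.card E) / η ≤ R := Nat.le_ceil _
      rw [div_le_iff₀ hη] at h3
      have h4 : (0 : ℝ) ≤ R := by positivity
      nlinarith
    rw [← Real.log_pow] at h2
    exact (Real.log_le_log_iff (by linarith) (by positivity)).1 h2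
  obtain ⟨K, ρ, hK1, hK2, hK3, hK4⟩ := exists_clusters (q := q) (a := fun e => (Sum.inl (s e) : U ⊕ V))
    (b := fun e => (Sum.inr (d e) : U ⊕ V)) hη hR2 _ (univ : Finset (U ⊕ V)) rfl
  have hins : ins (fun e => (Sum.inl (s e) : U ⊕ V)) (fun e => (Sum.inr (d e) : U ⊕ V)) univ =
      univ := by
    simp [ins]
  rw [hins, card_univ] at hK2
  choose Q f hQ1 hQ2 hQ3 using fun v => hK3 v (mem_univ v)
  refine ⟨fun o => insert o (Q (Sum.inl (s o)) ∪ Q (Sum.inr (d o))),
    fun o c => o ∈ K → f (Sum.inr (d o)) c = f (Sum.inl (s o)) c + c o, ?_, ?_, ?_, ?_⟩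
  · intro o c c' h
    have h1 : f (Sum.inr (d o)) c = f (Sum.inr (d o)) c' :=
      hQ2 _ c c' fun e he => h e (mem_insert_of_mem (mem_union_right _ he))
    have h2 : f (Sum.inl (s o)) c = f (Sum.inl (s o)) c' :=
      hQ2 _ c c' fun e he => h e (mem_insert_of_mem (mem_union_left _ he))
    have h3 := h o (mem_insert_self _ _)
    beta_reduce
    rw [h1, h2, h3]
  · intro o
    have h1 := hQ1 (Sum.inl (s o))
    have h2 := hQ1 (Sum.inr (d o))
    have h3 : (insert o (Q (Sum.inl (s o)) ∪ Q (Sum.inr (d o)))).card ≤ 2 * R + 3 := by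
      refine (card_insert_le _ _).trans ?_
      have := card_union_le (Q (Sum.inl (s o))) (Q (Sum.inr (d o)))
      omega
    calc ((insert o (Q (Sum.inl (s o)) ∪ Q (Sum.inr (d o)))).card : ℝ) ≤ 2 * R + 3 := by
          exact_mod_cast h3
      _ ≤ 2 * (2 * Real.log (Fintype.card E) / η + 1) + 3 := by linarith
      _ = _ := by ring
  · rintro c ⟨x, y, hxy⟩ o ho
    have h1 := hQ3 (Sum.inl (s o)) c (Sum.elim x y) (fun e => by simpa using hxy e)
    have h2 := hQ3 (Sum.inr (d o)) c (Sum.elim x y) (fun e => by simpa using hxy e)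
    have h3 : ρ (Sum.inl (s o)) = ρ (Sum.inr (d o)) := hK4 o ho
    simp only [Sum.elim_inl, Sum.elim_inr] at h1 h2
    have h4 := hxy o
    rw [h1, h2, ← h3, add_assoc] at h4
    exact add_left_cancel h4
  · intro c
    refine ⟨fun u => f (Sum.inl u) c, fun v => f (Sum.inr v) c, ?_⟩
    have h1 : (univ.filter fun o => o ∈ K → f (Sum.inr (d o)) c = f (Sum.inl (s o)) c + c o) ⊆
        (univ \ K) ∪ univ.filter fun e => f (Sum.inr (d e)) c = f (Sum.inl (s e)) c + c e := by
      intro o ho
      simp only [mem_filter, mem_univ, true_and, mem_union, mem_sdiff] at ho ⊢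
      tauto
    have h2 : ((univ.filter fun o =>
          o ∈ K → f (Sum.inr (d o)) c = f (Sum.inl (s o)) c + c o).card : ℝ) ≤
        η * Fintype.card E +
          (univ.filter fun e => f (Sum.inr (d e)) c = f (Sum.inl (s e)) c + c e).card := by
      calc _ ≤ (((univ \ K).card : ℝ)) +
            (univ.filter fun e => f (Sum.inr (d e)) c = f (Sum.inl (s e)) c + c e).card := by
            exact_mod_cast (card_le_card h1).trans (card_union_le _ _)
        _ ≤ _ := by gcongr
    convert h2

end Pool.Agent.KS6_62.QQ
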