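import Pool.Agent.KS6_62.QQ.Main
import Pool.Graph.R_pool_sql_team_seeded_47a924f7.T6.H63.LD.Graph

/-!
From the usual oracle `|e, b, w⟩ ↦ |e, b + c e, w⟩` to phase queries, and the explicit graphs.
-/

set_option autoImplicit false

namespace Pool.Agent.KS6_62.QQ

open Finset
open Pool.Agent.T6.H63.LD (gr grH exists_graph)

section oracle

variable {E W : Type} [Fintype E] [DecidableEq E] [Fintype W] {q : ℕ} [NeZero q]

/-- Parseval on `ZMod q` -/
theorem par1 (u : ZMod q → ℂ) :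
    ∑ y : ZMod q, ‖∑ b, ZMod.stdAddChar (b * y) * u b‖ ^ 2 = q * ∑ b, ‖u b‖ ^ 2 := by
  let Φ : ZMod q →+ (Unit → ZMod q) :=
    { toFun := fun y _ => y
      map_zero' := rfl
      map_add' := fun _ _ => rfl }
  have h := iso_one (E := Unit) Φ (fun S => u (S ())) (by
    intro S S' _ _ h
    ext e
    have h1 := h 1
    simp only [pr, Φ, AddMonoidHom.coe_mk, ZeroHom.coe_mk, mul_one, univ_unique,
      PUnit.default_eq_unit, sum_singleton, Pi.sub_apply, sub_eq_zero] at h1
    exact h1)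
  rw [ZMod.card] at h
  have e1 : ∀ f : (Unit → ZMod q) → ℂ, ∑ S, f S = ∑ b : ZMod q, f (fun _ => b) := by
    intro f
    exact ((Equiv.funUnique Unit (ZMod q)).symm.sum_comp f).symm
  have e2 : ∀ f : (Unit → ZMod q) → ℝ, ∑ S, f S = ∑ b : ZMod q, f (fun _ => b) := by
    intro f
    exact ((Equiv.funUnique Unit (ZMod q)).symm.sum_comp f).symm
  rw [e2] at h
  simp only [e1] at h
  simpa [ch, pr, Φ] using h

/-- Fourier transform of the answer register -/
noncomputable def FT : (E × ZMod q × W → ℂ) →ₗ[ℂ] (E × ZMod q × W → ℂ) where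
  toFun v z := ((1 / √q : ℝ) : ℂ) * ∑ b, ZMod.stdAddChar (b * z.2.1) * v (z.1, b, z.2.2)
  map_add' v v' := by
    ext z
    simp only [Pi.add_apply, mul_add, sum_add_distrib]
  map_smul' a v := by
    ext z
    simp only [Pi.smul_apply, smul_eq_mul, RingHom.id_apply, mul_sum]
    refine sum_congr rfl fun b _ => ?_
    ring

omit [Fintype E] [DecidableEq E] [Fintype W] in
theorem FT_apply (v : E × ZMod q × W → ℂ) (z : E × ZMod q × W) :
    FT v z = ((1 / √q : ℝ) : ℂ) * ∑ b, ZMod.stdAddChar (b * z.2.1) * v (z.1, b, z.2.2) := rfl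

omit [DecidableEq E] in
theorem nsq_FT (v : E × ZMod q × W → ℂ) : nsq (FT v) = nsq v := by
  have hq : (0 : ℝ) < q := by exact_mod_cast Nat.pos_of_ne_zero (NeZero.ne q)
  have h1 : ∀ u : E × ZMod q × W → ℂ, nsq u = ∑ e, ∑ w, ∑ b, ‖u (e, b, w)‖ ^ 2 := by
    intro u
    rw [nsq, Fintype.sum_prod_type]
    refine sum_congr rfl fun e _ => ?_
    rw [Fintype.sum_prod_type, sum_comm]
  rw [h1, h1]
  refine sum_congr rfl fun e _ => sum_congr rfl fun w _ => ?_
  simp only [FT_apply, norm_mul, mul_pow]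
  rw [← mul_sum, par1 (fun b => v (e, b, w)), Complex.norm_real, Real.norm_of_nonneg (by positivity),
    div_pow, one_pow, Real.sq_sqrt hq.le]
  field_simp

/-- the oracle for the shifts `c` -/
def orc (c : E → ZMod q) (v : E × ZMod q × W → ℂ) : E × ZMod q × W → ℂ :=
  fun z => v (z.1, z.2.1 - c z.1, z.2.2)

/-- the query vector of a basis state in the Fourier picture -/
def shv (z : E × ZMod q × W) : E → ZMod q := Pi.single z.1 z.2.1

omit [Fintype W] in
theorem FT_orc (c : E → ZMod q) (v : E × ZMod q × W → ℂ) :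
    FT (orc c v) = ph shv c (FT v) := by
  ext z
  simp only [FT_apply, ph, orc, ch, pr, shv]
  have h1 : ∑ e, (Pi.single z.1 z.2.1 : E → ZMod q) e * c e = z.2.1 * c z.1 := by
    rw [sum_eq_single z.1]
    · simp
    · intro e _ he
      simp [he]
    · simp
  rw [h1, mul_left_comm]
  congr 1
  rw [mul_sum, ← Equiv.sum_comp (Equiv.addRight (c z.1))]
  refine sum_congr rfl fun b _ => ?_
  simp only [Equiv.coe_addRight, add_sub_cancel_right]
  rw [add_mul, AddChar.map_add_eq_mul, mul_comm (c z.1) z.2.1]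
  ring

omit [NeZero q] [Fintype W] in
theorem shv_supp (z : E × ZMod q × W) : (univ.filter fun e => shv z e ≠ 0).card ≤ 1 := by
  refine (card_le_card (t := {z.1}) ?_).trans (by simp)
  intro e he
  simp only [mem_filter, mem_univ, true_and, mem_singleton] at he ⊢
  by_contra h
  apply he
  simp [shv, h]

end oracle

theorem nsq_unitary {Z : Type} [Fintype Z] [DecidableEq Z] (A : Matrix Z Z ℂ)
    (hA : A ∈ Matrix.unitaryGroup Z ℂ) (v : Z → ℂ) : nsq (A.mulVec v) = nsq v := by
  have h1 : ∀ u : Z → ℂ, ((nsq u : ℝ) : ℂ) = star u ⬝ᵥ u := by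
    intro u
    rw [nsq, dotProduct]
    push_cast
    refine sum_congr rfl fun z _ => ?_
    rw [Pi.star_apply, ← Complex.conj_mul']
    rfl
  have h2 : ((nsq (A.mulVec v) : ℝ) : ℂ) = ((nsq v : ℝ) : ℂ) := by
    rw [h1, h1, Matrix.star_mulVec, Matrix.dotProduct_mulVec, Matrix.vecMul_vecMul]
    have h3 : A.conjTranspose * A = 1 := by
      have := (Matrix.mem_unitaryGroup_iff').1 hA
      rwa [Matrix.star_eq_conjTranspose] at this
    rw [h3, Matrix.vecMul_one]
  exact_mod_cast h2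

section std

variable {E W : Type} [Fintype E] [DecidableEq E] [Fintype W] [DecidableEq W] {q : ℕ}

/-- the run of an algorithm with the usual oracle -/
def srun [NeZero q] (A : ℕ → Matrix (E × ZMod q × W) (E × ZMod q × W) ℂ) (v : E × ZMod q × W → ℂ)
    (c : E → ZMod q) : ℕ → E × ZMod q × W → ℂ
  | 0 => v
  | t + 1 => (A t).mulVec (orc c (srun A v c t))

variable [Fact q.Prime]

open Classical in
/-- the lower bound for the usual oracle -/
theorem std_lower {U V : Type} [Fintype U] [Fintype V] {s : E → U} {d : E → V}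
    (hinj : ∀ e e', s e = s e' → d e = d e' → e = e') {r : ℕ}
    (hg : ((2 * r : ℕ) : ℕ∞) < (gr s d Set.univ).egirth) {δ ε : ℝ} (hδ : 0 < δ)
    (hδ1 : δ ≤ 1 / 4) (hε : 0 < ε) (hε1 : ε ≤ 1)
    (hm : 3 * ((Fintype.card U : ℝ) + Fintype.card V + 1) ≤ δ * Fintype.card E)
    (hq : 1 / δ ^ 3 ≤ q) (T : ℕ)
    (A : ℕ → Matrix (E × ZMod q × W) (E × ZMod q × W) ℂ)
    (hA : ∀ t, A t ∈ Matrix.unitaryGroup (E × ZMod q × W) ℂ) (v : E × ZMod q × W → ℂ)
    (hv : ∑ z, ‖v z‖ ^ 2 = 1) (acc : Set (E × ZMod q × W))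
    (hyes : ∀ c : E → ZMod q, (∃ (x : U → ZMod q) (y : V → ZMod q),
        (1 - ε) * Fintype.card E ≤ ((univ.filter fun e => y (d e) = x (s e) + c e).card : ℝ)) →
        2 / 3 ≤ ∑ z, if z ∈ acc then ‖srun A v c T z‖ ^ 2 else 0)
    (hno : ∀ c : E → ZMod q, (∀ (x : U → ZMod q) (y : V → ZMod q),
        ((univ.filter fun e => y (d e) = x (s e) + c e).card : ℝ) ≤ δ * Fintype.card E) →
        (∑ z, if z ∈ acc then ‖srun A v c T z‖ ^ 2 else 0) ≤ 1 / 3) :
    Real.exp (ε * r / 72) ≤ 6 * T := by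
  set F : (E × ZMod q × W → ℂ) →ₗ[ℂ] (E × ZMod q × W → ℂ) := FT with hF
  have hFinj : Function.Injective F := by
    rw [injective_iff_map_eq_zero]
    intro v hv0
    have h1 : nsq v = 0 := by
      rw [← nsq_FT, ← hF, hv0]
      simp [nsq]
    ext z
    have h2 : ‖v z‖ ^ 2 ≤ nsq v :=
      single_le_sum (f := fun z => ‖v z‖ ^ 2) (fun _ _ => by positivity) (mem_univ z)
    rw [h1] at h2
    have h3 : ‖v z‖ = 0 := by
      have : 0 ≤ ‖v z‖ ^ 2 := by positivity
      exact pow_eq_zero_iff (two_ne_zero) |>.1 (le_antisymm h2 this)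
    simpa using h3
  let Fe := LinearEquiv.ofInjectiveEndo F hFinj
  have hFe : ∀ v, Fe v = F v := fun v => rfl
  have hnF : ∀ v, nsq (Fe v) = nsq v := fun v => nsq_FT v
  have hnFs : ∀ v, nsq (Fe.symm v) = nsq v := by
    intro v
    rw [← hnF, LinearEquiv.apply_symm_apply]
  let Ug : ℕ → (E × ZMod q × W → ℂ) →ₗ[ℂ] (E × ZMod q × W → ℂ) := fun t =>
    Fe.toLinearMap ∘ₗ (A t).mulVecLin ∘ₗ Fe.symm.toLinearMap
  have hUg : ∀ t v, Ug t v = Fe ((A t).mulVec (Fe.symm v)) := fun t v => rfl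
  have hU : ∀ t v, nsq (Ug t v) = nsq v := by
    intro t v
    rw [hUg, hnF, nsq_unitary _ (hA t), hnFs]
  let R : (E × ZMod q × W → ℂ) →ₗ[ℂ] (E × ZMod q × W → ℂ) :=
    { toFun := fun v z => if z ∈ acc then v z else 0
      map_add' := fun v v' => by
        ext z
        by_cases h : z ∈ acc <;> simp [h]
      map_smul' := fun a v => by
        ext z
        by_cases h : z ∈ acc <;> simp [h] }
  have hR : ∀ v z, R v z = if z ∈ acc then v z else 0 := fun _ _ => rfl
  have hR1 : ∀ v, nsq (R v) ≤ nsq v := by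
    intro v
    refine sum_le_sum fun z _ => ?_
    rw [hR]
    by_cases h : z ∈ acc <;> simp [h]
  let M := R ∘ₗ Fe.symm.toLinearMap
  have hM : ∀ v, nsq (M v) ≤ nsq v := fun v => (hR1 _).trans (hnFs v).le
  have hrun : ∀ c t, run shv Ug (Fe v) c t = Fe (srun A v c t) := by
    intro c t
    induction t with
    | zero => rfl
    | succ t ih =>
      rw [run, ih, hUg, srun]
      congr 2
      rw [LinearEquiv.symm_apply_eq]
      exact (FT_orc c _).symm
  have hacc : ∀ c, nsq (M (run shv Ug (Fe v) c T)) =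
      ∑ z, if z ∈ acc then ‖srun A v c T z‖ ^ 2 else 0 := by
    intro c
    rw [hrun]
    have h1 : M (Fe (srun A v c T)) = R (srun A v c T) := by
      change R (Fe.symm (Fe _)) = _
      rw [LinearEquiv.symm_apply_apply]
    rw [h1, nsq]
    refine sum_congr rfl fun z _ => ?_
    rw [hR]
    by_cases h : z ∈ acc <;> simp [h]
  refine lower hinj hg hδ hδ1 hε hε1 hm hq T shv shv_supp Ug hU (Fe v) ?_ M hM ?_ ?_
  · rw [hnF]
    exact hv
  · intro c hc
    rw [hacc]
    exact hyes c hc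
  · intro c hc
    rw [hacc]
    exact hno c hc

end std

open Classical in
/-- The lower bound on a graph with `15 N / δ` edges. -/
theorem std_graph {δ ε : ℝ} (hδ : 0 < δ) (hδ1 : δ ≤ 1 / 4) (hε : 0 < ε) (hε1 : ε ≤ 1) (N : ℕ)
    (hN : 1 / δ ^ 7 ≤ N) :
    ∃ H : Finset (Fin N × Fin N), (H.card : ℝ) ≤ 15 * N / δ ∧
      ∀ (q : ℕ) [Fact q.Prime], 1 / δ ^ 3 ≤ q → ∀ (T : ℕ) (W : Type) [Fintype W] [DecidableEq W]
      (A : ℕ → Matrix (H × ZMod q × W) (H × ZMod q × W) ℂ),
      (∀ t, A t ∈ Matrix.unitaryGroup (H × ZMod q × W) ℂ) → ∀ (v : H × ZMod q × W → ℂ),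
      ∑ z, ‖v z‖ ^ 2 = 1 → ∀ (acc : Set (H × ZMod q × W)),
      (∀ c : H → ZMod q, (∃ x y : Fin N → ZMod q,
        (1 - ε) * Fintype.card H ≤ ((univ.filter fun e : H => y e.1.2 = x e.1.1 + c e).card : ℝ)) →
        2 / 3 ≤ ∑ z, if z ∈ acc then ‖srun A v c T z‖ ^ 2 else 0) →
      (∀ c : H → ZMod q, (∀ x y : Fin N → ZMod q,
        ((univ.filter fun e : H => y e.1.2 = x e.1.1 + c e).card : ℝ) ≤ δ * Fintype.card H) →
        (∑ z, if z ∈ acc then ‖srun A v c T z‖ ^ 2 else 0) ≤ 1 / 3) →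
      (N : ℝ) ^ (ε / (432 * Real.log (1 / δ))) ≤ 7 * T := by
  set D := ⌈14 / δ⌉₊ with hD
  set L := Real.log (1 / δ) with hL
  have hδinv : 4 ≤ 1 / δ := by
    rw [le_div_iff₀ hδ]
    linarith
  have hlog4 : 1.386 ≤ Real.log 4 := by
    have h1 : Real.log 4 = 2 * Real.log 2 := by
      rw [show (4 : ℝ) = 2 ^ 2 by norm_num, Real.log_pow]
      norm_num
    have := Real.log_two_gt_d9
    rw [h1]
    linarith
  have hL4 : 1.386 ≤ L := hlog4.trans (Real.log_le_log (by norm_num) hδinv)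
  have hL0 : 0 < L := by linarith
  have hexpL : Real.exp L = 1 / δ := Real.exp_log (by positivity)
  have hD14 : 14 / δ ≤ D := Nat.le_ceil _
  have hD15 : (D : ℝ) ≤ 14 / δ + 1 := (Nat.ceil_lt_add_one (by positivity)).le
  have hD1 : (D : ℝ) + 1 ≤ (1 / δ) ^ 3 := by
    have h1 : (14 : ℝ) / δ = 14 * (1 / δ) := by ring
    have h2 : (16 : ℝ) * (1 / δ) ≤ (1 / δ) ^ 3 := by
      have h3 : (4 : ℝ) ^ 2 ≤ (1 / δ) ^ 2 := by gcongr
      calc (16 : ℝ) * (1 / δ) = 4 ^ 2 * (1 / δ) := by norm_num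
        _ ≤ (1 / δ) ^ 2 * (1 / δ) := by gcongr
        _ = _ := by ring
    linarith
  have hNpos : (4 : ℝ) ^ 7 ≤ N := by
    refine le_trans ?_ hN
    rw [← one_div_pow]
    gcongr
  have hN0 : (0 : ℝ) < N := lt_of_lt_of_le (by norm_num) hNpos
  set r := ⌊Real.log (N / 2) / (6 * L)⌋₊ with hr
  have hlogN : 0 ≤ Real.log (N / 2) := Real.log_nonneg (by
    rw [le_div_iff₀ (by norm_num)]
    linarith)
  have hr1 : 1 ≤ r := by
    rw [hr, Nat.one_le_floor_iff, le_div_iff₀ (by positivity), one_mul]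
    rw [Real.le_log_iff_exp_le (by positivity)]
    have h1 : Real.exp (6 * L) = (1 / δ) ^ 6 := by
      rw [← hexpL, ← Real.exp_nat_mul]
      norm_num
    rw [h1, le_div_iff₀ (by norm_num)]
    calc (1 / δ) ^ 6 * 2 ≤ (1 / δ) ^ 6 * (1 / δ) := by
          gcongr
          linarith
      _ = 1 / δ ^ 7 := by
          rw [← pow_succ, one_div_pow]
      _ ≤ N := hN
  have hrle : (r : ℝ) ≤ Real.log (N / 2) / (6 * L) := Nat.floor_le (by positivity)
  have hrge : Real.log (N / 2) / (6 * L) - 1 ≤ r := by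
    have := Nat.lt_floor_add_one (Real.log (N / 2) / (6 * L))
    linarith
  have hND : 2 * (D + 1) ^ (2 * r) ≤ N := by
    have h1 : ((D : ℝ) + 1) ^ (2 * r) ≤ N / 2 := by
      calc ((D : ℝ) + 1) ^ (2 * r) ≤ ((1 / δ) ^ 3) ^ (2 * r) := by gcongr
        _ = Real.exp (r * (6 * L)) := by
            rw [← pow_mul, ← hexpL, ← Real.exp_nat_mul]
            congr 1
            push_cast
            ring
        _ ≤ Real.exp (Real.log (N / 2)) := by
            apply Real.exp_le_exp.2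
            rwa [le_div_iff₀ (by positivity)] at hrle
        _ = N / 2 := Real.exp_log (by positivity)
    have h2 : (2 : ℝ) * ((D : ℝ) + 1) ^ (2 * r) ≤ N := by linarith
    exact_mod_cast h2
  obtain ⟨H, hH1, hH2, hH3⟩ := exists_graph N D r hr1 hND
  refine ⟨H, ?_, ?_⟩
  · have h1 : (H.card : ℝ) ≤ N * D := by exact_mod_cast hH2
    calc (H.card : ℝ) ≤ N * D := h1
      _ ≤ N * (14 / δ + 1) := by gcongr
      _ ≤ N * (15 / δ) := by
          gcongr
          have : (15 : ℝ) / δ = 14 / δ + 1 / δ := by ring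
          linarith
      _ = _ := by ring
  intro q _ hq T W _ _ A hA v hv acc hyes hno
  have hgr : gr (fun e : H => e.1.1) (fun e : H => e.1.2) Set.univ = grH H := by
    ext x y
    constructor
    · rintro ⟨e, -, he⟩
      exact ⟨e.1, e.2, he⟩
    · rintro ⟨e, he, he'⟩
      exact ⟨⟨e, he⟩, Set.mem_univ _, he'⟩
  have hg : ((2 * r : ℕ) : ℕ∞) <
      (gr (fun e : H => e.1.1) (fun e : H => e.1.2) Set.univ).egirth := by
    rw [hgr]
    exact hH3
  have hcardH : Fintype.card H = H.card := Fintype.card_coe H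
  have hm : 3 * ((Fintype.card (Fin N) : ℝ) + Fintype.card (Fin N) + 1) ≤
      δ * Fintype.card H := by
    rw [hcardH, Fintype.card_fin]
    have h1 : (N : ℝ) * D ≤ 2 * H.card := by exact_mod_cast hH1
    have h2 : (N : ℝ) * (14 / δ) ≤ 2 * H.card := le_trans (by gcongr) h1
    have h3 : (N : ℝ) * (14 / δ) * δ ≤ 2 * H.card * δ := by gcongr
    have h4 : (N : ℝ) * (14 / δ) * δ = 14 * N := by
      field_simp
    rw [h4] at h3
    nlinarith
  have hmain := std_lower (s := fun e : H => e.1.1) (d := fun e : H => e.1.2)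
    (fun e e' h1 h2 => Subtype.ext (Prod.ext h1 h2)) hg hδ hδ1 hε hε1 hm hq T A hA v hv acc
    (by
      intro c hc
      refine hyes c ?_
      obtain ⟨x, y, hxy⟩ := hc
      refine ⟨x, y, ?_⟩
      convert hxy) (by
      intro c hc
      refine hno c ?_
      intro x y
      convert hc x y)
  have hpowN : (N : ℝ) ^ (ε / (432 * L)) ≤ 1.03 * Real.exp (ε * r / 72) := by
    have h1 : (N : ℝ) ^ (ε / (432 * L)) = Real.exp (Real.log N * (ε / (432 * L))) := by
      rw [Real.rpow_def_of_pos hN0]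
    rw [h1]
    have h2 : Real.log N = Real.log (N / 2) + Real.log 2 := by
      rw [← Real.log_mul (by positivity) (by norm_num)]
      congr 1
      ring
    have h3 : Real.log N * (ε / (432 * L)) ≤ 0.02 + ε * r / 72 := by
      have h4 : Real.log (N / 2) * (ε / (432 * L)) = ε / 72 * (Real.log (N / 2) / (6 * L)) := by
        field_simp
        ring
      have h5 : ε / 72 * (Real.log (N / 2) / (6 * L)) ≤ ε / 72 * (r + 1) := by
        gcongr
        linarith
      have h6 : Real.log 2 * (ε / (432 * L)) ≤ 0.002 := by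
        have h7 : ε / (432 * L) ≤ 1 / (432 * 1.386) := by
          gcongr
        have h8 := Real.log_two_lt_d9
        have h9 : 0 ≤ ε / (432 * L) := by positivity
        have h10 : 0 ≤ Real.log 2 := Real.log_nonneg (by norm_num)
        calc Real.log 2 * (ε / (432 * L)) ≤ 0.7 * (1 / (432 * 1.386)) := by
              gcongr
              linarith
          _ ≤ 0.002 := by norm_num
      rw [h2, add_mul, h4]
      nlinarith
    calc Real.exp (Real.log N * (ε / (432 * L))) ≤ Real.exp (0.02 + ε * r / 72) :=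
          Real.exp_le_exp.2 h3
      _ = Real.exp 0.02 * Real.exp (ε * r / 72) := Real.exp_add _ _
      _ ≤ 1.03 * Real.exp (ε * r / 72) := by
          gcongr
          have := Real.exp_bound' (x := 0.02) (by norm_num) (by norm_num) (n := 3) (by norm_num)
          refine this.trans ?_
          simp [Finset.sum_range_succ, Nat.factorial]
          norm_num
  calc (N : ℝ) ^ (ε / (432 * L)) ≤ 1.03 * Real.exp (ε * r / 72) := hpowN
    _ ≤ 1.03 * (6 * T) := by gcongr
    _ ≤ 7 * T := by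
        have : (0 : ℝ) ≤ T := by positivity
        linarith

end Pool.Agent.KS6_62.QQ
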